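import Mathlib

set_option autoImplicit false
open scoped commutatorElement

namespace Pool.Agent.Helper28.BL

/-- left Engel elements -/
def LE {K : Type*} [Group K] (a : K) : Prop :=
  ∀ x : K, ∃ n : ℕ, (fun z : K => z⁻¹ * a⁻¹ * z * a)^[n] x = 1

/-- left-normed commutators in the `a i` of weight `w.length + 1` -/
def cw {G : Type*} [Group G] {r : ℕ} (a : Fin r → G) (i : Fin r) : List (Fin r) → G
  | [] => a i
  | (j :: w) => ⁅cw a i w, a j⁆

/-- a left Engel element or a commutator of an arbitrary element with a left Engel element -/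
def Good {K : Type*} [Group K] (x : K) : Prop :=
  LE x ∨ ∃ a u : K, LE a ∧ x = ⁅u, a⁆

end Pool.Agent.Helper28.BL
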