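import Pool.Agent.Helper28.BL.Defs

set_option autoImplicit false
open scoped commutatorElement

namespace Pool.Agent.Helper28.BL



theorem cw_mem {G : Type*} [Group G] {r : ℕ} (a : Fin r → G) (i : Fin r) (w : List (Fin r)) :
    cw a i w ∈ Subgroup.lowerCentralSeries (⊤ : Subgroup G) w.length := by
  induction w with
  | nil => exact Subgroup.mem_top _
  | cons j w ih =>
    rw [List.length_cons, Subgroup.lowerCentralSeries_succ]
    exact Subgroup.commutator_mem_commutator ih (Subgroup.mem_top _)

end Pool.Agent.Helper28.BL
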