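import Pool.Agent.Helper28.BL.Defs

set_option autoImplicit false
open scoped commutatorElement

namespace Pool.Agent.Helper28.BL



theorem lcs_gen_cw {K : Type*} [Group K] {r : ℕ} (a : Fin r → K) (i : Fin r)
    (w : List (Fin r)) :
    cw a i w ∈ Subgroup.lowerCentralSeries (⊤ : Subgroup K) w.length := by
  induction w with
  | nil => exact Subgroup.mem_top _
  | cons k w ih => exact Subgroup.commutator_mem_commutator ih (Subgroup.mem_top _)

/-- `lowerCentralSeries ⊤ (j+1)` is generated modulo `lowerCentralSeries ⊤ (j+2)` by the `cw a i w` with `w.length = j + 1`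
(induction on `j`, bilinearity of commutators modulo the next term) -/
theorem lcs_gen {K : Type*} [Group K] {r : ℕ} (a : Fin r → K)
    (hgen : Subgroup.closure (Set.range a) = ⊤) (j : ℕ) :
    Subgroup.lowerCentralSeries (⊤ : Subgroup K) j ≤
      Subgroup.closure {x | ∃ (i : Fin r) (w : List (Fin r)), w.length = j ∧ x = cw a i w} ⊔
        Subgroup.lowerCentralSeries (⊤ : Subgroup K) (j + 1) := by
  induction j with
  | zero =>
    intro x _
    refine Subgroup.mem_sup_left ?_
    have hx : x ∈ Subgroup.closure (Set.range a) := hgen ▸ Subgroup.mem_top x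
    refine Subgroup.closure_mono ?_ hx
    rintro _ ⟨i, rfl⟩
    exact ⟨i, [], rfl, rfl⟩
  | succ j ih =>
    generalize hH : Subgroup.closure {x | ∃ (i : Fin r) (w : List (Fin r)),
      w.length = j + 1 ∧ x = cw a i w} ⊔
        Subgroup.lowerCentralSeries (⊤ : Subgroup K) (j + 1 + 1) = H
    have hN : Subgroup.lowerCentralSeries (⊤ : Subgroup K) (j + 1 + 1) ≤ H := by
      rw [← hH]; exact le_sup_right
    have hcw : ∀ (i : Fin r) (w : List (Fin r)), w.length = j + 1 → cw a i w ∈ H := by
      intro i w hw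
      rw [← hH]
      exact Subgroup.mem_sup_left (Subgroup.subset_closure ⟨i, w, hw, rfl⟩)
    have hc1 : ∀ g h : K, h ∈ Subgroup.lowerCentralSeries (⊤ : Subgroup K) (j + 1) →
        ⁅g, h⁆ ∈ H := by
      intro g h hh
      have h1 : ⁅h, g⁆ ∈ Subgroup.lowerCentralSeries (⊤ : Subgroup K) (j + 1 + 1) :=
        Subgroup.commutator_mem_commutator hh (Subgroup.mem_top _)
      have h2 : ⁅g, h⁆ = ⁅h, g⁆⁻¹ := (commutatorElement_inv h g).symm
      rw [h2]
      exact hN (inv_mem h1)
    have hc0 : ∀ x ∈ Subgroup.lowerCentralSeries (⊤ : Subgroup K) j, ∀ y : K,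
        ⁅x, y⁆ ∈ Subgroup.lowerCentralSeries (⊤ : Subgroup K) (j + 1) :=
      fun x hx y => Subgroup.commutator_mem_commutator hx (Subgroup.mem_top _)
    let P : Subgroup K :=
      { carrier := {x | x ∈ Subgroup.lowerCentralSeries (⊤ : Subgroup K) j ∧
          ∀ y, ⁅x, y⁆ ∈ H}
        mul_mem' := by
          rintro x x' ⟨hx, hx1⟩ ⟨hx', hx1'⟩
          refine ⟨mul_mem hx hx', fun y => ?_⟩
          have e : ⁅x * x', y⁆ = ⁅x, ⁅x', y⁆⁆ * ⁅x', y⁆ * ⁅x, y⁆ := by
            simp only [commutatorElement_def]; group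
          rw [e]
          exact mul_mem (mul_mem (hc1 _ _ (hc0 _ hx' y)) (hx1' y)) (hx1 y)
        one_mem' := ⟨one_mem _, fun y => by
          rw [commutatorElement_one_left]; exact one_mem _⟩
        inv_mem' := by
          rintro x ⟨hx, hx1⟩
          refine ⟨inv_mem hx, fun y => ?_⟩
          have e : ⁅x⁻¹, y⁆ = ⁅x⁻¹, ⁅x, y⁆⁻¹⁆ * ⁅x, y⁆⁻¹ := by
            simp only [commutatorElement_def]; group
          rw [e]
          exact mul_mem (hc1 _ _ (inv_mem (hc0 _ hx y))) (inv_mem (hx1 y)) }
    have hP : Subgroup.lowerCentralSeries (⊤ : Subgroup K) j ≤ P := by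
      refine ih.trans (sup_le ?_ ?_)
      · rw [Subgroup.closure_le]
        rintro _ ⟨i, w, hw, rfl⟩
        have hx : cw a i w ∈ Subgroup.lowerCentralSeries (⊤ : Subgroup K) j := by
          rw [← hw]; exact lcs_gen_cw a i w
        refine ⟨hx, fun y => ?_⟩
        have hy : y ∈ Subgroup.closure (Set.range a) := hgen ▸ Subgroup.mem_top y
        induction hy using Subgroup.closure_induction with
        | mem y hy =>
          obtain ⟨k, rfl⟩ := hy
          exact hcw i (k :: w) (by simp [hw])
        | one => rw [commutatorElement_one_right]; exact one_mem _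
        | mul y y' _ _ h1 h2 =>
          have e : ⁅cw a i w, y * y'⁆ =
              ⁅cw a i w, y⁆ * ⁅y, ⁅cw a i w, y'⁆⁆ * ⁅cw a i w, y'⁆ := by
            simp only [commutatorElement_def]; group
          rw [e]
          exact mul_mem (mul_mem h1 (hc1 _ _ (hc0 _ hx y'))) h2
        | inv y _ h1 =>
          have e : ⁅cw a i w, y⁻¹⁆ = ⁅y⁻¹, ⁅cw a i w, y⁆⁻¹⁆ * ⁅cw a i w, y⁆⁻¹ := by
            simp only [commutatorElement_def]; group
          rw [e]
          exact mul_mem (hc1 _ _ (inv_mem (hc0 _ hx y))) (inv_mem h1)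
      · intro x hx
        refine ⟨Subgroup.lowerCentralSeries_antitone _ (Nat.le_succ j) hx, fun y => ?_⟩
        exact hN (Subgroup.commutator_mem_commutator hx (Subgroup.mem_top _))
    rw [Subgroup.lowerCentralSeries_succ, Subgroup.commutator_le]
    intro x hx y _
    exact (hP hx).2 y

end Pool.Agent.Helper28.BL
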