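import Pool.Agent.Helper28.BL.Defs

set_option autoImplicit false
open scoped commutatorElement

namespace Pool.Agent.Helper28.BL



/-- Schreier: `R.subgroupOf M` has finite index (cosets of `x^0..x^(k-1)`), `Subgroup.fg_of_index_ne_zero`. -/
theorem fin_index {K : Type*} [Group K] (M R : Subgroup K) (hRn : R.Normal) (hRM : R ≤ M) (hM : M.FG)
    (x : K) (hxM : x ∈ M) (hgen : ∀ m ∈ M, ∃ k : ℤ, m * x ^ k ∈ R)
    (hfin : ∃ k : ℤ, k ≠ 0 ∧ x ^ k ∈ R) : R.FG := by
  classical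
  obtain ⟨k, hk0, hk⟩ := hfin
  have hkn : ∀ q : ℤ, x ^ (k * q) ∈ R := fun q => by
    rw [zpow_mul]; exact R.zpow_mem hk q
  let X : M := ⟨x, hxM⟩
  have hfq : Finite (M ⧸ R.subgroupOf M) := by
    let f : Set.Ico (0:ℤ) |k| → M ⧸ R.subgroupOf M := fun i => QuotientGroup.mk (X ^ (i : ℤ))
    refine Finite.of_surjective f ?_
    intro q
    obtain ⟨⟨m, hm⟩, rfl⟩ := QuotientGroup.mk_surjective q
    obtain ⟨j, hj⟩ := hgen m hm
    have h1 : x ^ j * m ∈ R := by
      have h2 := hRn.conj_mem _ hj (x ^ j)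
      have h3 : x ^ j * (m * x ^ j) * (x ^ j)⁻¹ = x ^ j * m := by group
      rwa [h3] at h2
    have hkpos : 0 < |k| := abs_pos.2 hk0
    refine ⟨⟨(-j) % k, Int.emod_nonneg _ hk0, Int.emod_lt_abs _ hk0⟩, ?_⟩
    change (QuotientGroup.mk (X ^ ((-j) % k)) : M ⧸ R.subgroupOf M) = QuotientGroup.mk _
    rw [QuotientGroup.eq, Subgroup.mem_subgroupOf]
    change (x ^ ((-j) % k))⁻¹ * m ∈ R
    have h4 : (x ^ ((-j) % k))⁻¹ * m = x ^ (k * ((-j) / k)) * (x ^ j * m) := by
      rw [← mul_assoc, ← zpow_add, ← zpow_neg]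
      congr 2
      have := Int.emod_add_mul_ediv (-j) k
      linarith
    rw [h4]
    exact R.mul_mem (hkn _) h1
  have hfi : (R.subgroupOf M).FiniteIndex := Subgroup.finiteIndex_of_finite_quotient
  have hMfg : Group.FG M := (Group.fg_iff_subgroup_fg M).2 hM
  have h5 : Group.FG (R.subgroupOf M) := Subgroup.fg_of_index_ne_zero _
  have h6 : Group.FG R :=
    Group.fg_of_surjective (f := (Subgroup.subgroupOfEquivOfLe hRM).toMonoidHom)
      (Subgroup.subgroupOfEquivOfLe hRM).surjective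
  exact (Group.fg_iff_subgroup_fg R).1 h6

end Pool.Agent.Helper28.BL
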