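import Pool.Agent.Helper28.BL.Defs

set_option autoImplicit false
open scoped commutatorElement

namespace Pool.Agent.Helper28.BL



/-- conjugates -/
def oX {K : Type*} [Group K] (a x : K) (k : ℤ) : K := a ^ (-k) * x * a ^ k

/-- group generated by the conjugates with exponents in `[s, t)` -/
def oD {K : Type*} [Group K] (a x : K) (s t : ℤ) : Subgroup K :=
  Subgroup.closure {y | ∃ k : ℤ, s ≤ k ∧ k < t ∧ y = oX a x k}

theorem oD_mem {K : Type*} [Group K] (a x : K) {s t k : ℤ} (h1 : s ≤ k) (h2 : k < t) :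
    oX a x k ∈ oD a x s t := Subgroup.subset_closure ⟨k, h1, h2, rfl⟩

theorem oD_mono {K : Type*} [Group K] (a x : K) {s t s' t' : ℤ} (h1 : s' ≤ s) (h2 : t ≤ t') :
    oD a x s t ≤ oD a x s' t' := by
  refine Subgroup.closure_mono ?_
  rintro y ⟨k, hk1, hk2, rfl⟩
  exact ⟨k, h1.trans hk1, hk2.trans_le h2, rfl⟩

theorem oX_oX {K : Type*} [Group K] (a x : K) (s k : ℤ) : oX a (oX a x s) k = oX a x (s + k) := by
  unfold oX
  group

theorem oX_zero {K : Type*} [Group K] (a x : K) : oX a x 0 = x := by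
  unfold oX
  group

theorem oX_one {K : Type*} [Group K] (a x : K) : oX a x 1 = a⁻¹ * x * a := by
  unfold oX
  group

theorem oD_shift {K : Type*} [Group K] (a x : K) (s p q : ℤ) :
    oD a (oX a x s) p q ≤ oD a x (s + p) (s + q) := by
  refine Subgroup.closure_mono ?_
  rintro y ⟨k, hk1, hk2, rfl⟩
  exact ⟨s + k, by omega, by omega, oX_oX a x s k⟩

/-- the iterates -/
def oF {K : Type*} [Group K] (a : K) (n : ℕ) (x : K) : K :=
  (fun z : K => z⁻¹ * a⁻¹ * z * a)^[n] x

theorem oF_succ {K : Type*} [Group K] (a : K) (n : ℕ) (x : K) :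
    oF a (n + 1) x = (oF a n x)⁻¹ * a⁻¹ * oF a n x * a := by
  unfold oF
  rw [Function.iterate_succ_apply']

theorem oF_conj {K : Type*} [Group K] (a : K) (n : ℕ) (x : K) (s : ℤ) :
    oF a n (oX a x s) = oX a (oF a n x) s := by
  induction n with
  | zero => rfl
  | succ n ih =>
    rw [oF_succ, oF_succ, ih]
    unfold oX
    group

theorem oF_succ' {K : Type*} [Group K] (a : K) (n : ℕ) (x : K) :
    oF a (n + 1) x = (oF a n x)⁻¹ * oF a n (oX a x 1) := by
  rw [oF_succ, oF_conj, oX_one]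
  group

theorem o_L1 {K : Type*} [Group K] (a : K) (n : ℕ) : ∀ x : K,
    ∃ u ∈ oD a x 0 n, oF a n x = u * oX a x n := by
  induction n with
  | zero =>
    intro x
    refine ⟨1, one_mem _, ?_⟩
    rw [one_mul, Nat.cast_zero, oX_zero]
    rfl
  | succ n ih =>
    intro x
    obtain ⟨u, hu, hux⟩ := ih x
    obtain ⟨v, hv, hvx⟩ := ih (oX a x 1)
    refine ⟨(oF a n x)⁻¹ * v, mul_mem (inv_mem ?_) ?_, ?_⟩
    · rw [hux]
      exact mul_mem (oD_mono a x le_rfl (by push_cast; omega) hu)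
        (oD_mem a x (by omega) (by push_cast; omega))
    · exact oD_mono a x (by omega) (by push_cast; omega) (oD_shift a x 1 0 n hv)
    · rw [oF_succ', hvx, oX_oX, mul_assoc]
      congr 3
      push_cast
      ring

theorem o_L1' {K : Type*} [Group K] (a : K) (n : ℕ) (x : K) : oF a n x ∈ oD a x 0 (n + 1) := by
  obtain ⟨u, hu, hux⟩ := o_L1 a n x
  rw [hux]
  exact mul_mem (oD_mono a x le_rfl (by omega) hu) (oD_mem a x (by omega) (by omega))

theorem o_L2 {K : Type*} [Group K] (a : K) (n : ℕ) : ∀ x : K,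
    ∃ v ∈ oD a x 1 (n + 1), ∃ w ∈ oD a x 1 (n + 1),
      (oF a n x = v * x * w ∨ oF a n x = v * x⁻¹ * w) := by
  induction n with
  | zero =>
    intro x
    exact ⟨1, one_mem _, 1, one_mem _, Or.inl (by rw [one_mul, mul_one]; rfl)⟩
  | succ n ih =>
    intro x
    obtain ⟨v, hv, w, hw, h⟩ := ih x
    have h1 : oF a n (oX a x 1) ∈ oD a x 1 ((n + 1 : ℕ) + 1) :=
      oD_mono a x (by omega) (by push_cast; omega)
        (oD_shift a x 1 0 (n + 1) (o_L1' a n (oX a x 1)))
    have hv' := oD_mono a x (le_refl 1) (show (n : ℤ) + 1 ≤ (n + 1 : ℕ) + 1 by push_cast; omega) hv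
    have hw' := oD_mono a x (le_refl 1) (show (n : ℤ) + 1 ≤ (n + 1 : ℕ) + 1 by push_cast; omega) hw
    refine ⟨w⁻¹, inv_mem hw', v⁻¹ * oF a n (oX a x 1), mul_mem (inv_mem hv') h1, ?_⟩
    rcases h with h | h
    · right
      rw [oF_succ', h]
      group
    · left
      rw [oF_succ', h]
      group

/-- Put `x_k = a^(-k) x a^k` and `y_n` = the `n`-th iterate at `x`. By induction on `n` (for all `x`):
`y_n = u * x_n` with `u` in `closure {x_0..x_{n-1}}`, and `y_n = v * x_0 ^ (± 1) * w` with `v, w` in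
`closure {x_1..x_n}` (`y_{n+1}(x_0..) = y_n(x_0..x_n)⁻¹ y_n(x_1..x_{n+1})`, the second factor is the `n`-th iterate at
`a⁻¹ x a`). From `y_n = 1` and its conjugates by powers of `a`: `x_{k+n} ∈ closure {x_k..x_{k+n-1}}` and
`x_k ∈ closure {x_{k+1}..x_{k+n}}` for all `k : ℤ`, so all `x_k` are in `closure {x_0..x_{n-1}}`. -/
theorem orbit_one {K : Type*} [Group K] (a x : K) (n : ℕ)
    (h : (fun z : K => z⁻¹ * a⁻¹ * z * a)^[n] x = 1) (k : ℤ) :
    a ^ (-k) * x * a ^ k ∈
      Subgroup.closure {y | ∃ j : ℕ, j < n ∧ y = a ^ (-(j : ℤ)) * x * a ^ (j : ℤ)} := by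
  have hF : oF a n x = 1 := h
  have hFs : ∀ s : ℤ, oF a n (oX a x s) = 1 := by
    intro s
    rw [oF_conj, hF]
    unfold oX
    group
  have up : ∀ s : ℤ, oX a x (s + n) ∈ oD a x s (s + n) := by
    intro s
    obtain ⟨u, hu, hux⟩ := o_L1 a n (oX a x s)
    rw [hFs, oX_oX] at hux
    have h1 : oX a x (s + n) = u⁻¹ := (inv_eq_of_mul_eq_one_right hux.symm).symm
    rw [h1]
    have h2 := oD_shift a x s 0 n hu
    rw [add_zero] at h2
    exact inv_mem h2
  have dn : ∀ s : ℤ, oX a x s ∈ oD a x (s + 1) (s + 1 + n) := by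
    intro s
    obtain ⟨v, hv, w, hw, h3⟩ := o_L2 a n (oX a x s)
    have hv' := oD_shift a x s 1 (n + 1) hv
    have hw' := oD_shift a x s 1 (n + 1) hw
    rw [show s + ((n : ℤ) + 1) = s + 1 + n by ring] at hv' hw'
    rw [hFs] at h3
    rcases h3 with h3 | h3
    · have h4 : oX a x s = v⁻¹ * w⁻¹ := by
        have : v * oX a x s * w = 1 := h3.symm
        calc oX a x s = v⁻¹ * (v * oX a x s * w) * w⁻¹ := by group
          _ = v⁻¹ * w⁻¹ := by rw [this, mul_one]
      rw [h4]
      exact mul_mem (inv_mem hv') (inv_mem hw')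
    · have h4 : oX a x s = w * v := by
        have : v * (oX a x s)⁻¹ * w = 1 := h3.symm
        calc oX a x s = w * (v * (oX a x s)⁻¹ * w)⁻¹ * v := by group
          _ = w * v := by rw [this, inv_one, mul_one]
      rw [h4]
      exact mul_mem hw' hv'
  have hle1 : ∀ s : ℤ, oD a x (s + 1) (s + 1 + n) ≤ oD a x s (s + n) := by
    intro s
    refine (Subgroup.closure_le _).2 ?_
    rintro y ⟨j, hj1, hj2, rfl⟩
    rcases eq_or_ne j (s + n) with rfl | hj
    · exact up s
    · exact oD_mem a x (by omega) (by omega)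
  have hle2 : ∀ s : ℤ, oD a x s (s + n) ≤ oD a x (s + 1) (s + 1 + n) := by
    intro s
    refine (Subgroup.closure_le _).2 ?_
    rintro y ⟨j, hj1, hj2, rfl⟩
    rcases eq_or_ne j s with rfl | hj
    · exact dn j
    · exact oD_mem a x (by omega) (by omega)
  have heq : ∀ s : ℤ, oD a x s (s + n) = oD a x (s + 1) (s + 1 + n) := fun s =>
    le_antisymm (hle2 s) (hle1 s)
  have hall : ∀ s : ℤ, oD a x s (s + n) = oD a x 0 n := by
    intro s
    induction s using Int.induction_on with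
    | zero => rw [zero_add]
    | succ i ih => rw [← heq, ih]
    | pred i ih =>
      rw [heq (-(i : ℤ) - 1), sub_add_cancel, ih]
  have hk : oX a x k ∈ oD a x 0 n := by
    have h1 := up (k - n)
    rw [hall, sub_add_cancel] at h1
    exact h1
  have hle : oD a x 0 n ≤
      Subgroup.closure {y | ∃ j : ℕ, j < n ∧ y = a ^ (-(j : ℤ)) * x * a ^ (j : ℤ)} := by
    refine Subgroup.closure_mono ?_
    rintro y ⟨j, hj1, hj2, rfl⟩
    refine ⟨j.toNat, by omega, ?_⟩
    rw [Int.toNat_of_nonneg hj1]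
    rfl
  exact hle hk

end Pool.Agent.Helper28.BL
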