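import Pool.Agent.Helper28.BL.Defs
import Pool.Agent.Helper28.BL.P_orbit_one

set_option autoImplicit false
open scoped commutatorElement

namespace Pool.Agent.Helper28.BL



/-- apply `orbit_one` to finitely many generators of `E` (conjugation is a homomorphism) -/
theorem orbit_fg {K : Type*} [Group K] (a : K) (ha : LE a) (M : Subgroup K) (hMn : M.Normal)
    (E : Subgroup K) (hE : E.FG) (hEM : E ≤ M) :
    ∃ E' : Subgroup K, E'.FG ∧ E' ≤ M ∧ E ≤ E' ∧ ∀ e ∈ E, ∀ k : ℤ, a ^ (-k) * e * a ^ k ∈ E' := by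
  obtain ⟨S, hS⟩ := hE
  choose n hn using ha
  obtain ⟨W, hW⟩ : ∃ W : Set K, W = ⋃ s ∈ (S : Set K), ⋃ j ∈ (Finset.range (n s) : Set ℕ),
    {a ^ (-(j : ℤ)) * s * a ^ (j : ℤ)} := ⟨_, rfl⟩
  have hWfin : W.Finite := by
    rw [hW]
    apply Set.Finite.biUnion S.finite_toSet
    intro s _
    apply Set.Finite.biUnion (Finset.range (n s)).finite_toSet
    intro j _
    exact Set.finite_singleton _
  have hmemW : ∀ s ∈ S, ∀ j < n s, a ^ (-(j : ℤ)) * s * a ^ (j : ℤ) ∈ W := by
    intro s hs j hj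
    rw [hW]
    refine Set.mem_biUnion (Finset.mem_coe.2 hs) (Set.mem_biUnion (Finset.mem_coe.2 (Finset.mem_range.2 hj)) ?_)
    exact rfl
  have hgen : ∀ s ∈ S, ∀ k : ℤ, a ^ (-k) * s * a ^ k ∈ Subgroup.closure W := by
    intro s hs k
    have h1 := orbit_one a s (n s) (hn s) k
    refine (Subgroup.closure_mono ?_) h1
    rintro y ⟨j, hj, rfl⟩
    exact hmemW s hs j hj
  have hall : ∀ e ∈ E, ∀ k : ℤ, a ^ (-k) * e * a ^ k ∈ Subgroup.closure W := by
    intro e he k
    rw [← hS] at he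
    induction he using Subgroup.closure_induction with
    | mem x hx => exact hgen x hx k
    | one =>
      have : a ^ (-k) * 1 * a ^ k = 1 := by group
      rw [this]
      exact Subgroup.one_mem _
    | mul x y hx hy ihx ihy =>
      have : a ^ (-k) * (x * y) * a ^ k = (a ^ (-k) * x * a ^ k) * (a ^ (-k) * y * a ^ k) := by group
      rw [this]
      exact Subgroup.mul_mem _ ihx ihy
    | inv x hx ih =>
      have : a ^ (-k) * x⁻¹ * a ^ k = (a ^ (-k) * x * a ^ k)⁻¹ := by group
      rw [this]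
      exact Subgroup.inv_mem _ ih
  refine ⟨Subgroup.closure W, ?_, ?_, ?_, hall⟩
  · exact ⟨hWfin.toFinset, by rw [Set.Finite.coe_toFinset]⟩
  · rw [Subgroup.closure_le]
    intro y hy
    rw [hW] at hy
    simp only [Set.mem_iUnion] at hy
    obtain ⟨s, hs, j, hj, hy⟩ := hy
    rw [Set.mem_singleton_iff] at hy
    rw [hy]
    have hsM : s ∈ M := hEM (by rw [← hS]; exact Subgroup.subset_closure hs)
    have := hMn.conj_mem s hsM (a ^ (-(j : ℤ)))
    rw [← zpow_neg, neg_neg] at this
    exact this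
  · intro e he
    have := hall e he 0
    simpa using this

end Pool.Agent.Helper28.BL
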