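import Pool.Agent.Helper28.BL.Defs
import Pool.Agent.Helper28.BL.P_orbit_fg

set_option autoImplicit false
open scoped commutatorElement

namespace Pool.Agent.Helper28.BL



/-- `M = closure {y_j}` finite, `z_j = y_j * a ^ (k_j) ∈ R`. `R` is generated by the `a^(-k) z_j a^k`, `k : ℤ`
(the set `⋃ E * a^k`, `E = closure {a^(-k) z_j a^k}`, is closed under right multiplication by `a^(±1)` and `z_j^(±1)`, so it is `M`), and
these lie in a finitely generated subgroup of `R` by `orbit_fg`. -/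
theorem step_a {K : Type*} [Group K] (M R : Subgroup K) (hRn : R.Normal) (hRM : R ≤ M) (hM : M.FG)
    (a : K) (ha : LE a) (haM : a ∈ M) (hgen : ∀ m ∈ M, ∃ k : ℤ, m * a ^ k ∈ R)
    (hinf : ∀ k : ℤ, a ^ k ∈ R → k = 0) : R.FG := by
  classical
  obtain ⟨S, hS⟩ := hM
  have hSM : ∀ y ∈ (S : Set K), y ∈ M := fun y hy => by
    rw [← hS]; exact Subgroup.subset_closure hy
  choose! kk hkk using hgen
  have hz : ∀ y ∈ (S : Set K), y * a ^ (kk y) ∈ R := fun y hy => hkk y (hSM y hy)
  obtain ⟨E', hE'fg, hE'R, hE0, horb⟩ := orbit_fg a ha R hRn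
    (Subgroup.closure ((S.image fun y => y * a ^ (kk y) : Finset K) : Set K)) ⟨_, rfl⟩ (by
      rw [Subgroup.closure_le]
      intro z hz'
      rw [Finset.coe_image] at hz'
      obtain ⟨y, hy, rfl⟩ := hz'
      exact hz y hy)
  have hzE0 : ∀ y ∈ (S : Set K), y * a ^ (kk y) ∈
      Subgroup.closure ((S.image fun y => y * a ^ (kk y) : Finset K) : Set K) := fun y hy =>
    Subgroup.subset_closure (by rw [Finset.coe_image]; exact ⟨y, hy, rfl⟩)
  set E : Subgroup K := Subgroup.closure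
    {x | ∃ y ∈ (S : Set K), ∃ k : ℤ, x = a ^ (-k) * (y * a ^ (kk y)) * a ^ k} with hE
  have hgE : ∀ y ∈ (S : Set K), ∀ k : ℤ, a ^ (-k) * (y * a ^ (kk y)) * a ^ k ∈ E :=
    fun y hy k => Subgroup.subset_closure ⟨y, hy, k, rfl⟩
  have hEE' : E ≤ E' := by
    rw [hE, Subgroup.closure_le]
    rintro x ⟨y, hy, k, rfl⟩
    exact horb _ (hzE0 y hy) k
  have hT : ∀ m ∈ M, ∃ k : ℤ, m * a ^ k ∈ E := by
    intro m hm
    rw [← hS] at hm
    induction hm using Subgroup.closure_induction_right with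
    | one => exact ⟨0, by rw [zpow_zero, mul_one]; exact E.one_mem⟩
    | mul_right x hx y hy ih =>
      obtain ⟨k, hk⟩ := ih
      refine ⟨k + kk y, ?_⟩
      have h := E.mul_mem hk (hgE y hy k)
      have h2 : x * y * a ^ (k + kk y) = x * a ^ k * (a ^ (-k) * (y * a ^ (kk y)) * a ^ k) := by
        rw [add_comm, zpow_add, zpow_neg]; group
      rw [h2]; exact h
    | mul_inv_cancel x hx y hy ih =>
      obtain ⟨k, hk⟩ := ih
      refine ⟨k - kk y, ?_⟩
      have h := E.mul_mem hk (E.inv_mem (hgE y hy (k - kk y)))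
      have h2 : x * y⁻¹ * a ^ (k - kk y) =
          x * a ^ k * (a ^ (-(k - kk y)) * (y * a ^ (kk y)) * a ^ (k - kk y))⁻¹ := by
        rw [mul_inv_rev, mul_inv_rev, mul_inv_rev, zpow_neg, inv_inv, zpow_sub]; group
      rw [h2]; exact h
  have hRE : R ≤ E := by
    intro r hr
    obtain ⟨k, hk⟩ := hT r (hRM hr)
    have h1 : r * a ^ k ∈ R := hE'R (hEE' hk)
    have h2 : a ^ k ∈ R := (Subgroup.mul_mem_cancel_left R hr).1 h1
    have h3 := hinf k h2
    rw [h3, zpow_zero, mul_one] at hk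
    exact hk
  have : R = E' := le_antisymm (hRE.trans hEE') hE'R
  rw [this]
  exact hE'fg

end Pool.Agent.Helper28.BL
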