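import Pool.Agent.Helper28.BL.Defs

set_option autoImplicit false
open scoped commutatorElement

namespace Pool.Agent.Helper28.BL



theorem LE_conj {K : Type*} [Group K] (a : K) (ha : LE a) (u : K) : LE (u * a * u⁻¹) := by
  intro x
  obtain ⟨n, hn⟩ := ha (u⁻¹ * x * u)
  refine ⟨n, ?_⟩
  have key : ∀ (n : ℕ) (z : K),
      (fun z : K => z⁻¹ * (u * a * u⁻¹)⁻¹ * z * (u * a * u⁻¹))^[n] (u * z * u⁻¹) =
        u * ((fun z : K => z⁻¹ * a⁻¹ * z * a)^[n] z) * u⁻¹ := by
    intro n
    induction n with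
    | zero => intro z; rfl
    | succ n ih =>
      intro z
      rw [Function.iterate_succ_apply, Function.iterate_succ_apply, ← ih]
      congr 1
      group
  have h := key n (u⁻¹ * x * u)
  rw [hn] at h
  have e : u * (u⁻¹ * x * u) * u⁻¹ = x := by group
  rw [e] at h
  rw [h]
  group

end Pool.Agent.Helper28.BL
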