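import Pool.Agent.Helper28.BL.Defs
import Pool.Agent.Helper28.BL.P_orbit_fg
import Pool.Agent.Helper28.BL.P_LE_conj

set_option autoImplicit false
open scoped commutatorElement

namespace Pool.Agent.Helper28.BL



/-- two-sided induction over the integers from an equivalence of steps -/
theorem su_int {p : ℤ → Prop} (h0 : p 0) (h : ∀ k, p (k + 1) ↔ p k) : ∀ k, p k := by
  intro k
  induction k using Int.induction_on with
  | zero => exact h0
  | succ i ih => exact (h i).2 ih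
  | pred i ih =>
    have := (h (-(i : ℤ) - 1))
    rw [sub_add_cancel] at this
    exact this.1 ih

/-- `b = u a u⁻¹` is left Engel (`LE_conj`), `x = b a⁻¹`, `w_k = b^k * a^(-k)` (`k : ℤ`); `w_k ∈ R * x^k` as `x` is central
modulo `R`. `M = closure {x, z_j}` with finitely many `z_j ∈ R`. There is a finitely generated `E ≤ R` with
(1) `w_k z_j w_k⁻¹ = b^k a^(-k) z_j a^k b^(-k) ∈ E` (two applications of `orbit_fg`: `a`, then `b`) and
(2) `w_k x w_{k+1}⁻¹ = b^k (a^(-k) x a^k x⁻¹) b^(-k) ∈ E`: with `d = a⁻¹ x a x⁻¹ ∈ R`, `a^(-k) x a^k x⁻¹` is a product of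
`a^(-j) d^(±1) a^j`. So `⋃ E w_k` is closed under right multiplication by `x^(±1)`, `z_j^(±1)`, hence equals `M`; an
element `e w_k` of `R` has `x^k ∈ R`, `k = 0`. So `R = E`. -/
theorem step_u {K : Type*} [Group K] (M R : Subgroup K) (hRn : R.Normal) (hRM : R ≤ M) (hM : M.FG)
    (hc : ∀ m ∈ M, ∀ g : K, ⁅m, g⁆ ∈ R) (a u x : K) (ha : LE a) (hx : x = ⁅u, a⁆) (hxM : x ∈ M)
    (hgen : ∀ m ∈ M, ∃ k : ℤ, m * x ^ k ∈ R) (hinf : ∀ k : ℤ, x ^ k ∈ R → k = 0) : R.FG := by
  classical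
  set b := u * a * u⁻¹ with hb
  have hLEb : LE b := LE_conj a ha u
  have hxb : x = b * a⁻¹ := by rw [hx, hb, commutatorElement_def]
  have hcR : ∀ g : K, g * x * g⁻¹ * x⁻¹ ∈ R := by
    intro g
    have h1 := R.inv_mem (hc x hxM g)
    rwa [commutatorElement_inv, commutatorElement_def] at h1
  set w : ℤ → K := fun k => b ^ k * a ^ (-k) with hw
  have hw0 : w 0 = 1 := by simp [hw]
  have hwx : ∀ k : ℤ, w (k + 1) = b ^ k * x * a ^ (-k) := by
    intro k
    simp only [hw]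
    rw [zpow_add_one, neg_add, add_comm (-k) (-1), zpow_add a (-1) (-k), zpow_neg_one, hxb]
    group
  -- congruence modulo R
  have hcong : ∀ k : ℤ, w k * (x ^ k)⁻¹ ∈ R := by
    apply su_int
    · rw [hw0]; simp
    · intro k
      have e : w (k + 1) * (x ^ (k + 1))⁻¹ =
          (w k * (a ^ k * x * (a ^ k)⁻¹ * x⁻¹) * (w k)⁻¹) * (w k * (x ^ k)⁻¹) := by
        rw [hwx]
        simp only [hw]
        rw [zpow_add_one]
        group
      rw [e]
      exact Subgroup.mul_mem_cancel_left _ (hRn.conj_mem _ (hcR _) _)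
  -- generators
  obtain ⟨T, hT⟩ := hM
  have hTM : ∀ t ∈ T, t ∈ M := fun t ht => hT ▸ Subgroup.subset_closure ht
  choose kk hkk using hgen
  set zf : K → K := fun t => if h : t ∈ M then t * x ^ (kk t h) else 1 with hzf
  have hzfR : ∀ t, zf t ∈ R := by
    intro t
    simp only [hzf]
    split_ifs with h
    · exact hkk t h
    · exact R.one_mem
  set d : K := a⁻¹ * x * a * x⁻¹ with hd
  have hdR : d ∈ R := by
    have := hcR a⁻¹
    rwa [inv_inv] at this
  set E0 : Subgroup K := Subgroup.closure (↑(insert d (T.image zf)) : Set K) with hE0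
  have hE0R : E0 ≤ R := by
    rw [hE0, Subgroup.closure_le]
    intro y hy
    rw [Finset.mem_coe, Finset.mem_insert, Finset.mem_image] at hy
    rcases hy with rfl | ⟨t, -, rfl⟩
    · exact hdR
    · exact hzfR t
  have hdE0 : d ∈ E0 := Subgroup.subset_closure (Finset.mem_coe.2 (Finset.mem_insert_self _ _))
  obtain ⟨E1, hE1f, hE1R, hE01, hE1⟩ := orbit_fg a ha R hRn E0 ⟨_, rfl⟩ hE0R
  obtain ⟨E2, hE2f, hE2R, hE12, hE2⟩ := orbit_fg b hLEb R hRn E1 hE1f hE1R
  have hE2' : ∀ e ∈ E1, ∀ k : ℤ, b ^ k * e * b ^ (-k) ∈ E2 := by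
    intro e he k
    have := hE2 e he (-k)
    rwa [neg_neg] at this
  have hz : ∀ z ∈ E0, ∀ k : ℤ, w k * z * (w k)⁻¹ ∈ E2 := by
    intro z hz k
    have := hE2' _ (hE1 z hz k) k
    have e : w k * z * (w k)⁻¹ = b ^ k * (a ^ (-k) * z * a ^ k) * b ^ (-k) := by
      simp only [hw]
      group
    rw [e]
    exact this
  have hck : ∀ k : ℤ, a ^ (-k) * x * a ^ k * x⁻¹ ∈ E1 := by
    apply su_int
    · simp
    · intro k
      have e : a ^ (-(k + 1)) * x * a ^ (k + 1) * x⁻¹ =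
          (a ^ (-k) * d * a ^ k) * (a ^ (-k) * x * a ^ k * x⁻¹) := by
        rw [hd, zpow_add_one, neg_add, zpow_add a (-k) (-1), zpow_neg_one]
        group
      rw [e]
      exact Subgroup.mul_mem_cancel_left _ (hE1 d hdE0 k)
  have hxw : ∀ k : ℤ, w k * x * (w (k + 1))⁻¹ ∈ E2 := by
    intro k
    have := hE2' _ (hck k) k
    have e : w k * x * (w (k + 1))⁻¹ = b ^ k * (a ^ (-k) * x * a ^ k * x⁻¹) * b ^ (-k) := by
      rw [hwx]
      simp only [hw]
      group
    rw [e]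
    exact this
  -- the set of products
  have hMcl : ∀ m ∈ M, ∃ e ∈ E2, ∃ k : ℤ, m = e * w k := by
    intro m hm
    have hstep_x : ∀ y, (∃ e ∈ E2, ∃ k : ℤ, y = e * w k) → ∃ e ∈ E2, ∃ k : ℤ, y * x = e * w k := by
      rintro y ⟨e, he, k, rfl⟩
      refine ⟨e * (w k * x * (w (k + 1))⁻¹), E2.mul_mem he (hxw k), k + 1, ?_⟩
      group
    have hstep_xi : ∀ y, (∃ e ∈ E2, ∃ k : ℤ, y = e * w k) →
        ∃ e ∈ E2, ∃ k : ℤ, y * x⁻¹ = e * w k := by
      rintro y ⟨e, he, k, rfl⟩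
      have h1 := hxw (k - 1)
      rw [sub_add_cancel] at h1
      refine ⟨e * (w (k - 1) * x * (w k)⁻¹)⁻¹, E2.mul_mem he (E2.inv_mem h1), k - 1, ?_⟩
      group
    have hstep_z : ∀ z ∈ E0, ∀ y, (∃ e ∈ E2, ∃ k : ℤ, y = e * w k) →
        ∃ e ∈ E2, ∃ k : ℤ, y * z = e * w k := by
      rintro z hz0 y ⟨e, he, k, rfl⟩
      refine ⟨e * (w k * z * (w k)⁻¹), E2.mul_mem he (hz z hz0 k), k, ?_⟩
      group
    have hstep_xk : ∀ k : ℤ, ∀ y, (∃ e ∈ E2, ∃ k : ℤ, y = e * w k) →
        ∃ e ∈ E2, ∃ l : ℤ, y * x ^ k = e * w l := by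
      intro k
      induction k using Int.induction_on with
      | zero => intro y hy; simpa using hy
      | succ i ih =>
        intro y hy
        rw [zpow_add_one, ← mul_assoc]
        exact hstep_x _ (ih y hy)
      | pred i ih =>
        intro y hy
        rw [zpow_sub_one, ← mul_assoc]
        exact hstep_xi _ (ih y hy)
    have hzt : ∀ t ∈ T, zf t ∈ E0 := fun t ht => Subgroup.subset_closure
      (Finset.mem_coe.2 (Finset.mem_insert_of_mem (Finset.mem_image_of_mem zf ht)))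
    have htz : ∀ t ∈ T, ∃ k : ℤ, t = zf t * x ^ (-k) := by
      intro t ht
      refine ⟨kk t (hTM t ht), ?_⟩
      simp only [hzf]
      rw [dif_pos (hTM t ht)]
      group
    rw [← hT] at hm
    induction hm using Subgroup.closure_induction_right with
    | one => exact ⟨1, E2.one_mem, 0, by rw [hw0, mul_one]⟩
    | mul_right y hy t ht ih =>
      obtain ⟨k, hk⟩ := htz t ht
      rw [hk, ← mul_assoc]
      exact hstep_xk _ _ (hstep_z _ (hzt t ht) _ ih)
    | mul_inv_cancel y hy t ht ih =>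
      obtain ⟨k, hk⟩ := htz t ht
      rw [hk, mul_inv_rev, ← zpow_neg, neg_neg, ← mul_assoc]
      exact hstep_z _ (E0.inv_mem (hzt t ht)) _ (hstep_xk _ _ ih)
  have hRE : R = E2 := by
    apply le_antisymm _ hE2R
    intro r hr
    obtain ⟨e, he, k, hk⟩ := hMcl r (hRM hr)
    have hwk : w k ∈ R := by
      have : w k = e⁻¹ * r := by rw [hk]; group
      rw [this]
      exact R.mul_mem (R.inv_mem (hE2R he)) hr
    have hxk : x ^ k ∈ R := by
      have h1 := R.mul_mem (R.inv_mem (hcong k)) hwk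
      have e3 : (w k * (x ^ k)⁻¹)⁻¹ * w k = x ^ k := by group
      rwa [e3] at h1
    have hk0 := hinf k hxk
    subst hk0
    rw [hk, hw0, mul_one]
    exact he
  rw [hRE]
  exact hE2f

end Pool.Agent.Helper28.BL
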