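import Pool.Agent.Helper28.BL.Defs
import Pool.Agent.Helper28.BL.P_step_a
import Pool.Agent.Helper28.BL.P_step_u
import Pool.Agent.Helper28.BL.P_fin_index

set_option autoImplicit false
open scoped commutatorElement

namespace Pool.Agent.Helper28.BL



/-- induct on `l`, generalising `M`: for `l = x :: l'` let `M' = R ⊔ closure {y | y ∈ l'}`; it is normal in `K` (contains
`⁅M, K⁆`), `M = M' * zpowers x`; `M'` is finitely generated by `step_a`, `step_u` or `fin_index`. -/
theorem step_set {K : Type*} [Group K] (R : Subgroup K) (hRn : R.Normal) (l : List K)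
    (hl : ∀ x ∈ l, Good x) (hc : ∀ x ∈ l, ∀ g : K, ⁅x, g⁆ ∈ R)
    (hM : (R ⊔ Subgroup.closure {x | x ∈ l}).FG) : R.FG := by
  induction l with
  | nil =>
    have h1 : R ⊔ Subgroup.closure {x | x ∈ ([] : List K)} = R := by
      have h2 : {x : K | x ∈ ([] : List K)} = ∅ := by
        ext y
        simp
      rw [h2, Subgroup.closure_empty, sup_bot_eq]
    rwa [h1] at hM
  | cons x l' ih =>
    obtain ⟨M, hMd⟩ : ∃ M : Subgroup K, M = R ⊔ Subgroup.closure {y | y ∈ x :: l'} := ⟨_, rfl⟩
    obtain ⟨M', hM'd⟩ : ∃ M' : Subgroup K, M' = R ⊔ Subgroup.closure {y | y ∈ l'} := ⟨_, rfl⟩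
    rw [← hMd] at hM
    have hRM' : R ≤ M' := by
      rw [hM'd]
      exact le_sup_left
    have hxM : x ∈ M := by
      rw [hMd]
      exact Subgroup.mem_sup_right (Subgroup.subset_closure List.mem_cons_self)
    have hM'M : M' ≤ M := by
      rw [hM'd, hMd]
      exact sup_le_sup_left (Subgroup.closure_mono fun y hy => List.mem_cons_of_mem x hy) _
    -- the elements central modulo `R`
    obtain ⟨φ, hφ⟩ : ∃ φ : K →* K ⧸ R, (∀ g, φ g = 1 ↔ g ∈ R) ∧ Function.Surjective φ :=
      ⟨QuotientGroup.mk' R, fun g => QuotientGroup.eq_one_iff g, QuotientGroup.mk'_surjective R⟩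
    have hZ : ∀ m : K, m ∈ (Subgroup.center (K ⧸ R)).comap φ ↔ ∀ g : K, ⁅m, g⁆ ∈ R := by
      intro m
      rw [Subgroup.mem_comap, Subgroup.mem_center_iff]
      constructor
      · intro h g
        rw [← hφ.1, map_commutatorElement, commutatorElement_eq_one_iff_mul_comm]
        exact (h (φ g)).symm
      · intro h q
        obtain ⟨g, rfl⟩ := hφ.2 q
        have h1 := (hφ.1 _).2 (h g)
        rw [map_commutatorElement, commutatorElement_eq_one_iff_mul_comm] at h1
        exact h1.symm
    have hRZ : R ≤ (Subgroup.center (K ⧸ R)).comap φ := by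
      intro r hr
      rw [Subgroup.mem_comap, (hφ.1 r).2 hr]
      exact Subgroup.one_mem _
    have hMZ : M ≤ (Subgroup.center (K ⧸ R)).comap φ := by
      rw [hMd]
      refine sup_le hRZ ((Subgroup.closure_le _).2 fun y hy => ?_)
      exact (hZ y).2 (hc y hy)
    have hMc : ∀ m ∈ M, ∀ g : K, ⁅m, g⁆ ∈ R := fun m hm => (hZ m).1 (hMZ hm)
    have hM'n : M'.Normal := by
      refine ⟨fun m hm g => ?_⟩
      have h1 := hRM' (hMc m (hM'M hm) g)
      have h2 : g * m * g⁻¹ = ⁅m, g⁆⁻¹ * m := by
        rw [commutatorElement_def]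
        group
      rw [h2]
      exact M'.mul_mem (M'.inv_mem h1) hm
    have hsup : M ≤ M' ⊔ Subgroup.zpowers x := by
      rw [hMd]
      refine sup_le (hRM'.trans le_sup_left) ((Subgroup.closure_le _).2 fun y hy => ?_)
      rcases List.mem_cons.1 hy with rfl | hy
      · exact Subgroup.mem_sup_right (Subgroup.mem_zpowers _)
      · refine Subgroup.mem_sup_left ?_
        rw [hM'd]
        exact Subgroup.mem_sup_right (Subgroup.subset_closure hy)
    have hgen : ∀ m ∈ M, ∃ k : ℤ, m * x ^ k ∈ M' := by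
      intro m hm
      obtain ⟨m', hm', z, hz, rfl⟩ := Subgroup.mem_sup_of_normal_left.1 (hsup hm)
      obtain ⟨j, rfl⟩ := Subgroup.mem_zpowers_iff.1 hz
      refine ⟨-j, ?_⟩
      rw [mul_assoc, ← zpow_add, add_neg_cancel, zpow_zero, mul_one]
      exact hm'
    have hM'fg : M'.FG := by
      by_cases hfin : ∃ k : ℤ, k ≠ 0 ∧ x ^ k ∈ M'
      · exact fin_index M M' hM'n hM'M hM x hxM hgen hfin
      · have hinf : ∀ k : ℤ, x ^ k ∈ M' → k = 0 := by
          intro k hk
          by_contra hk0
          exact hfin ⟨k, hk0, hk⟩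
        rcases hl x List.mem_cons_self with ha | ⟨a, u, ha, hx⟩
        · exact step_a M M' hM'n hM'M hM x ha hxM hgen hinf
        · exact step_u M M' hM'n hM'M hM (fun m hm g => hRM' (hMc m hm g)) a u x ha hx hxM hgen hinf
    refine ih (fun y hy => hl y (List.mem_cons_of_mem x hy))
      (fun y hy => hc y (List.mem_cons_of_mem x hy)) ?_
    rw [← hM'd]
    exact hM'fg

end Pool.Agent.Helper28.BL
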