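import Pool.Agent.Helper28.BL.Defs
import Pool.Agent.Helper28.BL.P_step_set
import Pool.Agent.Helper28.BL.P_lcs_gen
import Pool.Agent.Helper28.BL.P_cw_mem

set_option autoImplicit false
open scoped commutatorElement

namespace Pool.Agent.Helper28.BL



/-- `M_j = lowerCentralSeries ⊤ j ⊔ R` is finitely generated by induction on `j` (`M_0 = ⊤`): `M_j` is `M_{j+1}` joined with
the closure of the finitely many `cw a i w`, `w.length = j` (`lcs_gen`, `List.finite_length_eq`), which are `Good` and
commute with `K` modulo `M_{j+1}` (`cw_mem`): `step_set`. `M_c = R`. -/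
theorem fg_main {K : Type*} [Group K] {r : ℕ} (a : Fin r → K)
    (hgen : Subgroup.closure (Set.range a) = ⊤) (ha : ∀ i, LE (a i)) (R : Subgroup K) (hRn : R.Normal)
    (c : ℕ) (hc : Subgroup.lowerCentralSeries (⊤ : Subgroup K) c ≤ R) : R.FG := by
  have key : ∀ j : ℕ, (Subgroup.lowerCentralSeries (⊤ : Subgroup K) j ⊔ R).FG := by
    intro j
    induction j with
    | zero =>
      rw [Subgroup.lowerCentralSeries_zero, top_sup_eq, ← hgen]
      exact (Subgroup.fg_iff _).2 ⟨Set.range a, rfl, Set.finite_range a⟩
    | succ j ih =>
      have hfin : {x | ∃ (i : Fin r) (w : List (Fin r)), w.length = j ∧ x = cw a i w}.Finite := by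
        have h1 : ((Set.univ : Set (Fin r)) ×ˢ {w : List (Fin r) | w.length = j}).Finite :=
          Set.finite_univ.prod (List.finite_length_eq (Fin r) j)
        refine (h1.image (fun q => cw a q.1 q.2)).subset ?_
        rintro x ⟨i, w, hw, rfl⟩
        exact ⟨(i, w), ⟨Set.mem_univ _, hw⟩, rfl⟩
      have hnorm : (Subgroup.lowerCentralSeries (⊤ : Subgroup K) (j + 1) ⊔ R).Normal := by
        have := hRn
        infer_instance
      have hl : ∀ x, x ∈ hfin.toFinset.toList ↔
          ∃ (i : Fin r) (w : List (Fin r)), w.length = j ∧ x = cw a i w := by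
        intro x
        rw [Finset.mem_toList, Set.Finite.mem_toFinset]
        rfl
      have hset : {x | x ∈ hfin.toFinset.toList} =
          {x | ∃ (i : Fin r) (w : List (Fin r)), w.length = j ∧ x = cw a i w} :=
        Set.ext hl
      refine step_set _ hnorm hfin.toFinset.toList ?_ ?_ ?_
      · intro x hx
        obtain ⟨i, w, -, rfl⟩ := (hl x).1 hx
        cases w with
        | nil => exact Or.inl (ha i)
        | cons k w => exact Or.inr ⟨a k, cw a i w, ha k, rfl⟩
      · intro x hx g
        obtain ⟨i, w, hw, rfl⟩ := (hl x).1 hx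
        refine Subgroup.mem_sup_left ?_
        rw [Subgroup.lowerCentralSeries_succ]
        exact Subgroup.commutator_mem_commutator (hw ▸ cw_mem a i w) (Subgroup.mem_top g)
      · rw [hset]
        have : Subgroup.lowerCentralSeries (⊤ : Subgroup K) (j + 1) ⊔ R ⊔ Subgroup.closure
            {x | ∃ (i : Fin r) (w : List (Fin r)), w.length = j ∧ x = cw a i w} =
            Subgroup.lowerCentralSeries (⊤ : Subgroup K) j ⊔ R := by
          apply le_antisymm
          · refine sup_le (sup_le_sup_right
              (Subgroup.lowerCentralSeries_antitone _ (Nat.le_succ j)) _) ?_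
            rw [Subgroup.closure_le]
            rintro x ⟨i, w, hw, rfl⟩
            exact Subgroup.mem_sup_left (hw ▸ cw_mem a i w)
          · refine sup_le ((lcs_gen a hgen j).trans (sup_le le_sup_right ?_)) ?_
            · exact le_sup_left.trans le_sup_left
            · exact le_sup_right.trans le_sup_left
        rw [this]
        exact ih
  have h := key c
  rwa [sup_eq_right.2 hc] at h

end Pool.Agent.Helper28.BL
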