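import Pool.Agent.Helper28.BL.Defs

set_option autoImplicit false
open scoped commutatorElement

namespace Pool.Agent.Helper28.BL



/-- finitely many operators preserving a nonzero subgroup `W`, commuting and locally nilpotent on `W`, have a common
zero in `W`: induct on `l`, replacing `W` by the kernel of the first operator in `W` -/
theorem common_ker {V : Type*} [AddCommGroup V] (l : List (AddMonoid.End V))
    (W : AddSubgroup V)
    (hn : ∀ D ∈ l, ∀ v ∈ W, ∃ n : ℕ, (D ^ n) v = 0)
    (hcm : ∀ D ∈ l, ∀ D' ∈ l, ∀ v ∈ W, D (D' v) = D' (D v))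
    (hW : ∀ D ∈ l, ∀ v ∈ W, D v ∈ W) (h0 : ∃ v ∈ W, v ≠ 0) :
    ∃ v ∈ W, v ≠ 0 ∧ ∀ D ∈ l, D v = 0 := by
  induction l generalizing W with
  | nil =>
    obtain ⟨v, hv, hv0⟩ := h0
    exact ⟨v, hv, hv0, fun D hD => absurd hD List.not_mem_nil⟩
  | cons D l ih =>
    have hDmem : D ∈ D :: l := List.mem_cons_self
    have hker : ∃ u ∈ W ⊓ D.ker, u ≠ 0 := by
      classical
      obtain ⟨v, hv, hv0⟩ := h0
      have hex := hn D hDmem v hv
      have hpow : ∀ k : ℕ, (D ^ k) v ∈ W := by
        intro k
        induction k with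
        | zero => exact hv
        | succ k ihk =>
          rw [pow_succ']
          exact hW D hDmem _ ihk
      have hspec := Nat.find_spec hex
      have hpos : Nat.find hex ≠ 0 := by
        intro h
        rw [h] at hspec
        exact hv0 hspec
      obtain ⟨k, hk⟩ := Nat.exists_eq_succ_of_ne_zero hpos
      refine ⟨(D ^ k) v, ⟨hpow k, ?_⟩, ?_⟩
      · rw [hk, Nat.succ_eq_add_one, pow_succ'] at hspec
        exact hspec
      · intro h
        have := Nat.find_min' hex h
        omega
    obtain ⟨v, hv, hv0, hvl⟩ := ih (W ⊓ D.ker)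
      (fun D' hD' v hv => hn D' (List.mem_cons_of_mem _ hD') v hv.1)
      (fun D' hD' D'' hD'' v hv => hcm D' (List.mem_cons_of_mem _ hD') D''
        (List.mem_cons_of_mem _ hD'') v hv.1)
      (by
        intro D' hD' v hv
        refine ⟨hW D' (List.mem_cons_of_mem _ hD') v hv.1, ?_⟩
        have h1 : D v = 0 := hv.2
        show D (D' v) = 0
        rw [hcm D hDmem D' (List.mem_cons_of_mem _ hD') v hv.1, h1, map_zero])
      hker
    refine ⟨v, hv.1, hv0, ?_⟩
    intro D' hD'
    rcases List.mem_cons.mp hD' with h | h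
    · rw [h]
      exact hv.2
    · exact hvl D' h

end Pool.Agent.Helper28.BL
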