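import Pool.Agent.Helper28.BL.Defs
import Pool.Agent.Helper28.BL.P_lcs_gen
import Pool.Agent.Helper28.BL.P_cw_mem
import Pool.Agent.Helper28.BL.P_common_ker

set_option autoImplicit false
open scoped commutatorElement

namespace Pool.Agent.Helper28.BL



theorem fx_res {K : Type*} [Group K] {V : Type*} [AddCommGroup V] (ρ : K →* AddMonoid.End V)
    (W : AddSubgroup V) (h : ∀ g, ∀ v ∈ W, ρ g v ∈ W) :
    ∃ σ : K →* AddMonoid.End W, ∀ g (v : W), ((σ g v : W) : V) = ρ g v := by
  refine ⟨{ toFun := fun g =>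
              { toFun := fun v => ⟨ρ g v, h g v v.2⟩
                map_zero' := ?_
                map_add' := ?_ }
            map_one' := ?_
            map_mul' := ?_ }, ?_⟩
  · apply Subtype.ext
    exact map_zero (ρ g)
  · intro v w
    apply Subtype.ext
    exact map_add (ρ g) (v : V) (w : V)
  · ext v
    show ρ 1 (v : V) = v
    rw [map_one]
    rfl
  · intro g g'
    ext v
    show ρ (g * g') (v : V) = ρ g (ρ g' (v : V))
    rw [map_mul]
    rfl
  · intro g v
    rfl

theorem fx_nil {K : Type*} [Group K] {V : Type*} [AddCommGroup V] (σ : K →* AddMonoid.End V)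
    (u b : K) (hb : IsNilpotent (σ b - 1)) (hcomm : Commute (σ ⁅u, b⁆) (σ b)) :
    IsNilpotent (σ ⁅u, b⁆ - 1) := by
  have hinv : ∀ g : K, σ g * σ g⁻¹ = 1 := by
    intro g
    rw [← map_mul, mul_inv_cancel, map_one]
  have hinv' : ∀ g : K, σ g⁻¹ * σ g = 1 := by
    intro g
    rw [← map_mul, inv_mul_cancel, map_one]
  obtain ⟨A, hA⟩ : ∃ A, A = σ ⁅u, b⁆ * σ b := ⟨_, rfl⟩
  have hA2 : A = σ u * σ b * σ u⁻¹ := by
    rw [hA, ← map_mul, ← map_mul, ← map_mul]
    congr 1
    rw [commutatorElement_def]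
    group
  have hA1 : IsNilpotent (A - 1) := by
    obtain ⟨n, hn⟩ := hb
    refine ⟨n, ?_⟩
    have h1 : A - 1 = σ u * (σ b - 1) * σ u⁻¹ := by
      rw [hA2, mul_sub, sub_mul, mul_one, hinv]
    have h2 : ∀ k : ℕ, (A - 1) ^ k = σ u * (σ b - 1) ^ k * σ u⁻¹ := by
      intro k
      induction k with
      | zero => rw [pow_zero, pow_zero, mul_one, hinv]
      | succ k ih =>
        rw [pow_succ, ih, h1, pow_succ]
        calc σ u * (σ b - 1) ^ k * σ u⁻¹ * (σ u * (σ b - 1) * σ u⁻¹)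
            = σ u * (σ b - 1) ^ k * (σ u⁻¹ * σ u) * (σ b - 1) * σ u⁻¹ := by
              simp only [mul_assoc]
          _ = _ := by rw [hinv', mul_one]; simp only [mul_assoc]
    rw [h2, hn, mul_zero, zero_mul]
  have hAB : Commute A (σ b) := by
    rw [hA]
    exact hcomm.mul_left (Commute.refl _)
  have hd : IsNilpotent ((A - 1) - (σ b - 1)) := by
    apply Commute.isNilpotent_sub _ hA1 hb
    exact (hAB.sub_left (Commute.one_left _)).sub_right
      ((Commute.one_right _))
  have hbb : Commute (σ b) (σ b⁻¹) := by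
    show σ b * σ b⁻¹ = σ b⁻¹ * σ b
    rw [hinv, hinv']
  have hAb : Commute A (σ b⁻¹) := by
    show A * σ b⁻¹ = σ b⁻¹ * A
    calc A * σ b⁻¹ = (σ b⁻¹ * σ b) * A * σ b⁻¹ := by rw [hinv', one_mul]
      _ = σ b⁻¹ * (A * σ b) * σ b⁻¹ := by rw [hAB.eq]; simp only [mul_assoc]
      _ = σ b⁻¹ * A * (σ b * σ b⁻¹) := by simp only [mul_assoc]
      _ = σ b⁻¹ * A := by rw [hinv, mul_one]
  have hfin : σ ⁅u, b⁆ - 1 = ((A - 1) - (σ b - 1)) * σ b⁻¹ := by
    have h1 : (A - 1) - (σ b - 1) = A - σ b := by abel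
    rw [h1, sub_mul, hA, mul_assoc, hinv, mul_one]
  rw [hfin]
  apply Commute.isNilpotent_mul_right _ hd
  have h1 : (A - 1) - (σ b - 1) = A - σ b := by abel
  rw [h1]
  exact hAb.sub_left hbb

/-- `W_j` = the fixed vectors of `lowerCentralSeries ⊤ j`; `W_c = V`. Show `W_{j+1} ≠ 0 → W_j ≠ 0`: `W_{j+1}` is `K`-invariant
(normality). For `x = cw a i w` of weight `j + 1`: `ρ x` commutes with all `ρ g` on `W_{j+1}`, and `ρ x - 1` is nilpotent on
`W_{j+1}`: for `w = []` by hypothesis; for `x = ⁅u, a⁆`, `ρ (u a u⁻¹) = ρ x * ρ a` with `ρ x` commuting with `ρ a`, `ρ (u a u⁻¹)` and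
`ρ a` unipotent. Common fixed vector of these finitely many `x` in `W_{j+1}` (`common_ker`); by `lcs_gen` it is fixed by
`lowerCentralSeries ⊤ j`. -/
theorem fixvec {K : Type*} [Group K] {r : ℕ} (a : Fin r → K)
    (hgen : Subgroup.closure (Set.range a) = ⊤) (V : Type*) [AddCommGroup V]
    (ρ : K →* AddMonoid.End V) (hu : ∀ i, IsNilpotent (ρ (a i) - 1)) (c : ℕ)
    (hc : ∀ g ∈ Subgroup.lowerCentralSeries (⊤ : Subgroup K) c, ρ g = 1) (h0 : ∃ v : V, v ≠ 0) :
    ∃ v : V, v ≠ 0 ∧ ∀ g, ρ g v = v := by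
  have hmul : ∀ (g h : K) (v : V), ρ (g * h) v = ρ g (ρ h v) := by
    intro g h v
    rw [map_mul]
    rfl
  have hone : ∀ v : V, ρ 1 v = v := by
    intro v
    rw [map_one]
    rfl
  have key : ∀ j : ℕ,
      (∃ v : V, v ≠ 0 ∧ ∀ g ∈ Subgroup.lowerCentralSeries (⊤ : Subgroup K) (j + 1), ρ g v = v) →
      ∃ v : V, v ≠ 0 ∧ ∀ g ∈ Subgroup.lowerCentralSeries (⊤ : Subgroup K) j, ρ g v = v := by
    rintro j ⟨v0, hv0, hv0f⟩
    obtain ⟨W, hW⟩ : ∃ W : AddSubgroup V, ∀ v, v ∈ W ↔
        ∀ g ∈ Subgroup.lowerCentralSeries (⊤ : Subgroup K) (j + 1), ρ g v = v := by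
      refine ⟨{ carrier := {v | ∀ g ∈ Subgroup.lowerCentralSeries (⊤ : Subgroup K) (j + 1), ρ g v = v}
                add_mem' := ?_
                zero_mem' := ?_
                neg_mem' := ?_ }, fun v => Iff.rfl⟩
      · intro v w hv hw g hg
        rw [map_add, hv g hg, hw g hg]
      · intro g _
        exact map_zero _
      · intro v hv g hg
        rw [map_neg, hv g hg]
    have hinvW : ∀ g, ∀ v ∈ W, ρ g v ∈ W := by
      intro g v hv
      rw [hW] at hv ⊢
      intro h hh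
      have h1 : g⁻¹ * h * g ∈ Subgroup.lowerCentralSeries (⊤ : Subgroup K) (j + 1) := by
        have h2 := (inferInstance :
          (Subgroup.lowerCentralSeries (⊤ : Subgroup K) (j + 1)).Normal).conj_mem h hh g⁻¹
        rwa [inv_inv] at h2
      calc ρ h (ρ g v) = ρ (h * g) v := (hmul _ _ _).symm
        _ = ρ (g * (g⁻¹ * h * g)) v := by congr 2; group
        _ = ρ g (ρ (g⁻¹ * h * g) v) := hmul _ _ _
        _ = ρ g v := by rw [hv _ h1]
    have hcommW : ∀ x ∈ Subgroup.lowerCentralSeries (⊤ : Subgroup K) j, ∀ g, ∀ v ∈ W,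
        ρ x (ρ g v) = ρ g (ρ x v) := by
      intro x hx g v hv
      rw [hW] at hv
      have h1 : ⁅x⁻¹, g⁻¹⁆ ∈ Subgroup.lowerCentralSeries (⊤ : Subgroup K) (j + 1) := by
        rw [Subgroup.lowerCentralSeries_succ]
        exact Subgroup.commutator_mem_commutator (inv_mem hx) (Subgroup.mem_top _)
      calc ρ x (ρ g v) = ρ (x * g) v := (hmul _ _ _).symm
        _ = ρ (g * x * ⁅x⁻¹, g⁻¹⁆) v := by
            congr 2
            rw [commutatorElement_def]
            group
        _ = ρ (g * x) (ρ ⁅x⁻¹, g⁻¹⁆ v) := hmul _ _ _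
        _ = ρ (g * x) v := by rw [hv _ h1]
        _ = ρ g (ρ x v) := hmul _ _ _
    obtain ⟨σ, hσ⟩ := fx_res ρ W hinvW
    have hpow : ∀ (g : K) (n : ℕ) (v : W), (((σ g - 1) ^ n) v : V) = ((ρ g - 1) ^ n) (v : V) := by
      intro g n
      induction n with
      | zero => intro v; rfl
      | succ n ih =>
        intro v
        have h1 : ((σ g - 1) ^ (n + 1)) v = ((σ g - 1) ^ n) ((σ g - 1) v) := by
          rw [pow_succ]
          rfl
        have h2 : ((ρ g - 1) ^ (n + 1)) (v : V) = ((ρ g - 1) ^ n) ((ρ g - 1) (v : V)) := by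
          rw [pow_succ]
          rfl
        rw [h1, h2, ih]
        congr 1
        show (((σ g) v - v : W) : V) = ρ g v - v
        rw [AddSubgroup.coe_sub, hσ]
    have hunil : ∀ (i : Fin r) (w : List (Fin r)), w.length = j →
        ∀ v ∈ W, ∃ n : ℕ, ((ρ (cw a i w) - 1) ^ n) v = 0 := by
      intro i w hwj v hv
      cases w with
      | nil =>
        obtain ⟨n, hn⟩ := hu i
        refine ⟨n, ?_⟩
        show ((ρ (a i) - 1) ^ n) v = 0
        rw [hn]
        rfl
      | cons b w' =>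
        have hmem : cw a i (b :: w') ∈ Subgroup.lowerCentralSeries (⊤ : Subgroup K) j := by
          rw [← hwj]
          exact cw_mem a i (b :: w')
        have hb : IsNilpotent (σ (a b) - 1) := by
          obtain ⟨n, hn⟩ := hu b
          refine ⟨n, ?_⟩
          ext v
          rw [hpow, hn]
          rfl
        have hcm : Commute (σ ⁅cw a i w', a b⁆) (σ (a b)) := by
          show σ ⁅cw a i w', a b⁆ * σ (a b) = σ (a b) * σ ⁅cw a i w', a b⁆
          ext v
          show ((σ ⁅cw a i w', a b⁆ (σ (a b) v) : W) : V) = (σ (a b) (σ ⁅cw a i w', a b⁆ v) : W)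
          rw [hσ, hσ, hσ, hσ]
          exact hcommW _ hmem (a b) v v.2
        obtain ⟨n, hn⟩ := fx_nil σ (cw a i w') (a b) hb hcm
        refine ⟨n, ?_⟩
        have h1 := hpow ⁅cw a i w', a b⁆ n ⟨v, hv⟩
        rw [hn] at h1
        exact h1.symm
    obtain ⟨l, hl⟩ : ∃ l : List (AddMonoid.End V), ∀ D, D ∈ l ↔
        ∃ (i : Fin r) (w : List (Fin r)), w.length = j ∧ D = ρ (cw a i w) - 1 := by
      refine ⟨((Finset.univ : Finset (Fin r × List.Vector (Fin r) j)).toList.map
        (fun p => ρ (cw a p.1 p.2.1) - 1)), ?_⟩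
      intro D
      rw [List.mem_map]
      constructor
      · rintro ⟨p, -, rfl⟩
        exact ⟨p.1, p.2.1, p.2.2, rfl⟩
      · rintro ⟨i, w, hw, rfl⟩
        exact ⟨(i, ⟨w, hw⟩), Finset.mem_toList.2 (Finset.mem_univ _), rfl⟩
    have hmemj : ∀ (i : Fin r) (w : List (Fin r)), w.length = j →
        cw a i w ∈ Subgroup.lowerCentralSeries (⊤ : Subgroup K) j := by
      intro i w hw
      rw [← hw]
      exact cw_mem a i w
    obtain ⟨v, hvW, hv, hvD⟩ := common_ker l W (by
      intro D hD v hv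
      obtain ⟨i, w, hw, rfl⟩ := (hl D).1 hD
      exact hunil i w hw v hv) (by
      intro D hD D' hD' v hv
      obtain ⟨i, w, hw, rfl⟩ := (hl D).1 hD
      obtain ⟨i', w', hw', rfl⟩ := (hl D').1 hD'
      have h1 := hcommW _ (hmemj i w hw) (cw a i' w') v hv
      show ρ (cw a i w) (ρ (cw a i' w') v - v) - (ρ (cw a i' w') v - v) =
        ρ (cw a i' w') (ρ (cw a i w) v - v) - (ρ (cw a i w) v - v)
      rw [map_sub, map_sub, h1]
      abel) (by
      intro D hD v hv
      obtain ⟨i, w, hw, rfl⟩ := (hl D).1 hD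
      exact W.sub_mem (hinvW _ v hv) hv) ⟨v0, (hW v0).2 hv0f, hv0⟩
    refine ⟨v, hv, ?_⟩
    obtain ⟨St, hSt⟩ : ∃ St : Subgroup K, ∀ g, g ∈ St ↔ ρ g v = v := by
      refine ⟨{ carrier := {g | ρ g v = v}
                mul_mem' := ?_
                one_mem' := hone v
                inv_mem' := ?_ }, fun g => Iff.rfl⟩
      · intro g h hg hh
        show ρ (g * h) v = v
        rw [hmul]
        have h1 : ρ h v = v := hh
        have h2 : ρ g v = v := hg
        rw [h1, h2]
      · intro g hg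
        have h2 : ρ g v = v := hg
        show ρ g⁻¹ v = v
        conv_lhs => rw [← h2]
        rw [← hmul, inv_mul_cancel, hone]
    have hle : Subgroup.lowerCentralSeries (⊤ : Subgroup K) j ≤ St := by
      refine (lcs_gen a hgen j).trans (sup_le ?_ ?_)
      · rw [Subgroup.closure_le]
        rintro x ⟨i, w, hw, rfl⟩
        rw [SetLike.mem_coe, hSt]
        have h1 := hvD _ ((hl _).2 ⟨i, w, hw, rfl⟩)
        exact sub_eq_zero.1 h1
      · intro g hg
        rw [hSt]
        exact (hW v).1 hvW g hg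
    intro g hg
    exact (hSt g).1 (hle hg)
  have hdown : ∀ j : ℕ, j ≤ c → ∃ v : V, v ≠ 0 ∧
      ∀ g ∈ Subgroup.lowerCentralSeries (⊤ : Subgroup K) (c - j), ρ g v = v := by
    intro j
    induction j with
    | zero =>
      intro _
      obtain ⟨v, hv⟩ := h0
      refine ⟨v, hv, ?_⟩
      intro g hg
      rw [hc g hg]
      rfl
    | succ j ih =>
      intro hj
      apply key
      have h1 : c - (j + 1) + 1 = c - j := by omega
      rw [h1]
      exact ih (by omega)
  obtain ⟨v, hv, hvg⟩ := hdown c le_rfl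
  refine ⟨v, hv, fun g => hvg g ?_⟩
  rw [Nat.sub_self]
  exact Subgroup.mem_top g

end Pool.Agent.Helper28.BL
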