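import Pool.Agent.Helper28.BL.Defs

set_option autoImplicit false
open scoped commutatorElement

namespace Pool.Agent.Helper28.BL



/-- a nontrivial homomorphism to `ℤ` becomes surjective after dividing by a generator of its image -/
theorem surj_of_ne {R : Type*} [Group R] (φ : R →* Multiplicative ℤ) (h : φ ≠ 1) :
    ∃ ψ : R →* Multiplicative ℤ, Function.Surjective ψ ∧ ∀ x y, φ x = φ y ↔ ψ x = ψ y := by
  let H : AddSubgroup ℤ :=
    { carrier := {n | ∃ x : R, Multiplicative.toAdd (φ x) = n}
      zero_mem' := ⟨1, by rw [map_one]; rfl⟩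
      add_mem' := by
        rintro a b ⟨x, hx⟩ ⟨y, hy⟩
        exact ⟨x * y, by rw [map_mul, toAdd_mul, hx, hy]⟩
      neg_mem' := by
        rintro a ⟨x, hx⟩
        exact ⟨x⁻¹, by rw [map_inv, toAdd_inv, hx]⟩ }
  obtain ⟨a, ha⟩ := Int.subgroup_cyclic H
  have hmem : ∀ x, ∃ k : ℤ, Multiplicative.toAdd (φ x) = k * a := by
    intro x
    have h1 : Multiplicative.toAdd (φ x) ∈ H := ⟨x, rfl⟩
    rw [ha, AddSubgroup.mem_closure_singleton] at h1
    obtain ⟨k, hk⟩ := h1
    exact ⟨k, by rw [← hk, smul_eq_mul]⟩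
  have ha0 : a ≠ 0 := by
    rintro rfl
    apply h
    ext x
    obtain ⟨k, hk⟩ := hmem x
    rw [mul_zero] at hk
    exact hk
  choose k hk using hmem
  refine ⟨{ toFun := fun x => Multiplicative.ofAdd (k x), map_one' := ?_, map_mul' := ?_ }, ?_, ?_⟩
  · have h1 := hk 1
    rw [map_one, toAdd_one] at h1
    have h2 : k 1 = 0 := by
      rcases mul_eq_zero.1 h1.symm with h2 | h2
      · exact h2
      · exact absurd h2 ha0
    rw [h2]
    rfl
  · intro x y
    have h1 := hk (x * y)
    rw [map_mul, toAdd_mul, hk x, hk y, ← add_mul] at h1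
    have h2 := mul_right_cancel₀ ha0 h1
    rw [← h2, ofAdd_add]
  · intro n
    have h1 : Multiplicative.toAdd n * a ∈ H := by
      rw [ha, AddSubgroup.mem_closure_singleton]
      exact ⟨Multiplicative.toAdd n, by rw [smul_eq_mul]⟩
    obtain ⟨x, hx⟩ := h1
    rw [hk x] at hx
    have h2 := mul_right_cancel₀ ha0 hx
    refine ⟨x, ?_⟩
    show Multiplicative.ofAdd (k x) = n
    rw [h2, ofAdd_toAdd]
  · intro x y
    show φ x = φ y ↔ Multiplicative.ofAdd (k x) = Multiplicative.ofAdd (k y)
    rw [Equiv.apply_eq_iff_eq]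
    constructor
    · intro e
      have h1 := hk x
      rw [e, hk y] at h1
      exact (mul_right_cancel₀ ha0 h1).symm
    · intro e
      apply Multiplicative.toAdd.injective
      rw [hk x, hk y, e]

end Pool.Agent.Helper28.BL
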