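import Pool.Agent.Helper28.BL.Defs
import Pool.Agent.Helper28.BL.P_fixvec
import Pool.Agent.Helper28.BL.P_surj_of_ne

set_option autoImplicit false
open scoped commutatorElement

namespace Pool.Agent.Helper28.BL



/-- conjugation action on the homomorphisms -/
noncomputable def inv_hom_rho {K : Type*} [Group K] (R : Subgroup K) [R.Normal] :
    K →* AddMonoid.End (Additive (R →* Multiplicative ℤ)) where
  toFun g :=
    { toFun := fun φ => Additive.ofMul
        ((Additive.toMul φ).comp (MulAut.conjNormal g⁻¹ : MulAut R).toMonoidHom)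
      map_zero' := rfl
      map_add' := fun φ ψ => rfl }
  map_one' := by
    refine AddMonoidHom.ext fun φ => ?_
    apply Additive.toMul.injective
    refine MonoidHom.ext fun x => ?_
    show (Additive.toMul φ) (MulAut.conjNormal (1 : K)⁻¹ x) = (Additive.toMul φ) x
    rw [inv_one, map_one]
    rfl
  map_mul' g h := by
    refine AddMonoidHom.ext fun φ => ?_
    apply Additive.toMul.injective
    refine MonoidHom.ext fun x => ?_
    show (Additive.toMul φ) (MulAut.conjNormal (g * h)⁻¹ x) =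
      (Additive.toMul φ) (MulAut.conjNormal h⁻¹ (MulAut.conjNormal g⁻¹ x))
    rw [mul_inv_rev, map_mul]
    rfl

theorem inv_hom_rho_apply {K : Type*} [Group K] (R : Subgroup K) [R.Normal] (g : K)
    (φ : Additive (R →* Multiplicative ℤ)) (x : R) :
    (Additive.toMul (inv_hom_rho R g φ)) x = (Additive.toMul φ) (MulAut.conjNormal g⁻¹ x) := rfl

theorem inv_hom_pow {K : Type*} [Group K] (R : Subgroup K) [R.Normal] (a : K) (k : ℕ)
    (φ : Additive (R →* Multiplicative ℤ)) (x : R) :
    (Additive.toMul (((inv_hom_rho R a - 1) ^ k) φ)) x =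
      (Additive.toMul φ) ((fun z : R => z⁻¹ * MulAut.conjNormal a⁻¹ z)^[k] x) := by
  induction k generalizing x with
  | zero => rfl
  | succ k ih =>
    rw [pow_succ', Function.iterate_succ_apply, ← ih]
    set w := ((inv_hom_rho R a - 1) ^ k) φ with hw
    have h1 : ((inv_hom_rho R a - 1) * (inv_hom_rho R a - 1) ^ k) φ =
        inv_hom_rho R a w - w := rfl
    rw [h1]
    have h2 : (Additive.toMul (inv_hom_rho R a w - w)) x =
      (Additive.toMul (inv_hom_rho R a w)) x / (Additive.toMul w) x := rfl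
    rw [h2, inv_hom_rho_apply, map_mul, map_inv (Additive.toMul w) x, div_eq_mul_inv, mul_comm]

theorem inv_hom_iter {K : Type*} [Group K] (R : Subgroup K) [R.Normal] (a : K) (k : ℕ) (x : R) :
    (((fun z : R => z⁻¹ * MulAut.conjNormal a⁻¹ z)^[k] x : R) : K) =
      (fun z : K => z⁻¹ * a⁻¹ * z * a)^[k] (x : K) := by
  induction k generalizing x with
  | zero => rfl
  | succ k ih =>
    rw [Function.iterate_succ_apply, Function.iterate_succ_apply, ih]
    congr 1
    rw [Subgroup.coe_mul, Subgroup.coe_inv, MulAut.conjNormal_apply, inv_inv]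
    group

/-- `V = Additive (R →* Multiplicative ℤ)`, `ρ g φ = φ (g⁻¹ · g)`; `((ρ (a i) - 1) φ) r = φ (r⁻¹ (a i)⁻¹ r (a i))`, so
`(ρ (a i) - 1) ^ N = 0`; `lowerCentralSeries ⊤ c ≤ R` acts trivially. `fixvec` and `surj_of_ne`. -/
theorem inv_hom {K : Type*} [Group K] {r : ℕ} (a : Fin r → K)
    (hgen : Subgroup.closure (Set.range a) = ⊤) (N : ℕ)
    (ha : ∀ (i : Fin r) (x : K), (fun z : K => z⁻¹ * (a i)⁻¹ * z * a i)^[N] x = 1)
    (R : Subgroup K) (hRn : R.Normal) (c : ℕ)
    (hc : Subgroup.lowerCentralSeries (⊤ : Subgroup K) c ≤ R)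
    (h0 : ∃ φ : R →* Multiplicative ℤ, φ ≠ 1) :
    ∃ φ : R →* Multiplicative ℤ, Function.Surjective φ ∧
      ∀ (g : K) (x : R) (hx : g * x * g⁻¹ ∈ R), φ ⟨g * x * g⁻¹, hx⟩ = φ x := by
  have hnil : ∀ i, IsNilpotent (inv_hom_rho R (a i) - 1) := by
    intro i
    refine ⟨N, ?_⟩
    refine AddMonoidHom.ext fun φ => ?_
    apply Additive.toMul.injective
    refine MonoidHom.ext fun x => ?_
    refine (inv_hom_pow R (a i) N φ x).trans ?_
    have h1 : ((fun z : R => z⁻¹ * MulAut.conjNormal (a i)⁻¹ z)^[N] x : R) = 1 := by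
      apply Subtype.ext
      rw [inv_hom_iter, ha i]
      rfl
    rw [h1, map_one]
    rfl
  have htriv : ∀ g ∈ Subgroup.lowerCentralSeries (⊤ : Subgroup K) c, inv_hom_rho R g = 1 := by
    intro g hg
    have hgR : g ∈ R := hc hg
    refine AddMonoidHom.ext fun φ => ?_
    apply Additive.toMul.injective
    refine MonoidHom.ext fun x => ?_
    refine (inv_hom_rho_apply R g φ x).trans ?_
    have h1 : (MulAut.conjNormal g⁻¹ x : R) = (⟨g, hgR⟩ : R)⁻¹ * x * (⟨g, hgR⟩ : R) := by
      apply Subtype.ext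
      rw [MulAut.conjNormal_apply, inv_inv]
      rfl
    rw [h1, map_mul, map_mul, map_inv, mul_comm, mul_inv_cancel_left]
    rfl
  have hne : ∃ v : Additive (R →* Multiplicative ℤ), v ≠ 0 := by
    obtain ⟨φ, hφ⟩ := h0
    exact ⟨Additive.ofMul φ, fun h => hφ (Additive.ofMul.injective h)⟩
  obtain ⟨v, hv, hfix⟩ := fixvec a hgen (Additive (R →* Multiplicative ℤ)) (inv_hom_rho R) hnil c
    htriv hne
  obtain ⟨ψ, hψ, hiff⟩ := surj_of_ne (Additive.toMul v)
    (fun h => hv (Additive.toMul.injective h))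
  refine ⟨ψ, hψ, fun g x hx => ?_⟩
  rw [← hiff]
  have h2 := hfix g⁻¹
  have h3 : (Additive.toMul (inv_hom_rho R g⁻¹ v)) x = (Additive.toMul v) x := by rw [h2]
  rw [inv_hom_rho_apply] at h3
  rw [← h3]
  congr 1
  apply Subtype.ext
  rw [MulAut.conjNormal_apply, inv_inv]

end Pool.Agent.Helper28.BL
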