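import Mathlib
import Pool.Agent.Helper351.Kos.NoChain
import Pool.Agent.Helper351.Kos.Final
import Pool.Agent.Helper28.BN.N1
import Pool.Agent.Helper28.BL.P_fg_main
import Pool.Agent.Helper28.BL.P_inv_hom

set_option autoImplicit false
open scoped commutatorElement
open Pool.Agent.Helper28.BN (class_bound_tf NoTor)
open Pool.Agent.Helper351.Kos (no_chain fg_map')
open Pool.Agent.Helper28.BO (iter_mem iter_add iter_conj)

namespace Pool.Agent.Helper28.BL

/-- a locally indicable group generated by `r` left `N`-Engel elements is nilpotent of bounded class -/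
theorem class_bound_LI (N r : ℕ) (hN : 1 ≤ N) : ∃ c : ℕ, ∀ (K : Type) [Group K] (a : Fin r → K),
    Subgroup.closure (Set.range a) = ⊤ →
    (∀ i x, (fun z : K => z⁻¹ * (a i)⁻¹ * z * a i)^[N] x = 1) →
    (∀ S : Subgroup K, S.FG → S ≠ ⊥ → ∃ φ : S →* Multiplicative ℤ, Function.Surjective φ) →
    Subgroup.lowerCentralSeries (⊤ : Subgroup K) c = ⊥ := by
  classical
  obtain ⟨c, hc⟩ := class_bound_tf N r hN
  refine ⟨c, ?_⟩
  intro K _ a hgen ha hLI
  by_contra hne
  have hLE : ∀ i, LE (a i) := fun i x => ⟨N, ha i x⟩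
  -- the property of the members of the chain
  let P : Subgroup K → Prop := fun R => R.Normal ∧
    (∃ c', Subgroup.lowerCentralSeries (⊤ : Subgroup K) c' ≤ R) ∧
    ∀ (x : K) (m : ℕ), 0 < m → x ^ m ∈ R → x ∈ R
  have hPc : ∀ R, P R → Subgroup.lowerCentralSeries (⊤ : Subgroup K) c ≤ R := by
    rintro R ⟨hRn, ⟨c', hc'⟩, hRt⟩
    have hmap : ∀ n, Subgroup.lowerCentralSeries (⊤ : Subgroup (K ⧸ R)) n =
        (Subgroup.lowerCentralSeries (⊤ : Subgroup K) n).map (QuotientGroup.mk' R) := by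
      intro n
      rw [Subgroup.map_lowerCentralSeries, Subgroup.map_top_of_surjective _
        (QuotientGroup.mk'_surjective _)]
    have hnil : Group.IsNilpotent (K ⧸ R) := by
      rw [Subgroup.nilpotent_iff_lowerCentralSeries]
      refine ⟨c', ?_⟩
      rw [hmap, Subgroup.map_eq_bot_iff, QuotientGroup.ker_mk']
      exact hc'
    have hbot := hc (K ⧸ R) (fun i => QuotientGroup.mk' R (a i)) ?_
      (fun i x => Pool.Agent.Helper28.BN.engel_quot R (a i) N (ha i) x) ?_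
    · rw [hmap, Subgroup.map_eq_bot_iff, QuotientGroup.ker_mk'] at hbot
      exact hbot
    · have e : (Set.range fun i => QuotientGroup.mk' R (a i)) =
          (QuotientGroup.mk' R) '' (Set.range a) := by
        rw [← Set.range_comp]; rfl
      rw [e, ← MonoidHom.map_closure, hgen]
      exact Subgroup.map_top_of_surjective _ (QuotientGroup.mk'_surjective _)
    · intro x m hm hx
      obtain ⟨x, rfl⟩ := QuotientGroup.mk'_surjective _ x
      rw [← map_pow, QuotientGroup.mk'_apply, QuotientGroup.eq_one_iff] at hx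
      rw [QuotientGroup.mk'_apply, QuotientGroup.eq_one_iff]
      exact hRt x m hm.1 hx
  have hstep : ∀ R : {R : Subgroup K // P R}, ∃ (φ : R.1 →* Multiplicative ℤ)
      (R' : {R : Subgroup K // P R}), Function.Surjective φ ∧ R'.1 ≤ R.1 ∧
        ∀ x : R.1, φ x = 1 ↔ (x : K) ∈ R'.1 := by
    rintro ⟨R, hR⟩
    have hRc := hPc R hR
    have hRn : R.Normal := hR.1
    have hRfg : R.FG := fg_main a hgen hLE R hRn c hRc
    have hR0 : R ≠ ⊥ := fun h => hne (le_bot_iff.1 (h ▸ hRc))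
    obtain ⟨φ0, hφ0⟩ := hLI R hRfg hR0
    obtain ⟨φ, hφ, hinv⟩ := inv_hom a hgen N ha R hRn c hRc ⟨φ0, by
      rintro rfl
      obtain ⟨y, hy⟩ := hφ0 (Multiplicative.ofAdd 1)
      have := congrArg Multiplicative.toAdd hy
      simp at this⟩
    have hmem : ∀ x, x ∈ φ.ker.map R.subtype ↔ ∃ hx : x ∈ R, φ ⟨x, hx⟩ = 1 := by
      intro x
      constructor
      · rintro ⟨y, hy, rfl⟩
        exact ⟨y.2, hy⟩
      · rintro ⟨hx, h⟩
        exact ⟨⟨x, hx⟩, h, rfl⟩
    refine ⟨φ, ⟨φ.ker.map R.subtype, ?_, ⟨c + 1, ?_⟩, ?_⟩, hφ, ?_, ?_⟩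
    · refine ⟨fun x hx g => ?_⟩
      obtain ⟨hxR, hx1⟩ := (hmem x).1 hx
      exact (hmem _).2 ⟨hRn.conj_mem x hxR g, by rw [hinv g ⟨x, hxR⟩]; exact hx1⟩
    · rw [Subgroup.lowerCentralSeries_succ, Subgroup.commutator_le]
      intro z hz g _
      have hzR : z ∈ R := hRc hz
      have h1 : g * z⁻¹ * g⁻¹ ∈ R := hRn.conj_mem _ (R.inv_mem hzR) g
      refine (hmem _).2 ⟨?_, ?_⟩
      · rw [commutatorElement_def]
        have := R.mul_mem hzR h1
        simpa [mul_assoc] using this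
      · have h2 := hinv g (⟨z⁻¹, R.inv_mem hzR⟩ : R) h1
        have h3 : (⟨⁅z, g⁆, by
            rw [commutatorElement_def]
            have := R.mul_mem hzR h1
            simpa [mul_assoc] using this⟩ : R) = ⟨z, hzR⟩ * ⟨g * z⁻¹ * g⁻¹, h1⟩ := by
          apply Subtype.ext
          show ⁅z, g⁆ = z * (g * z⁻¹ * g⁻¹)
          rw [commutatorElement_def]; group
        rw [h3, map_mul]
        have h4 : φ ⟨g * z⁻¹ * g⁻¹, h1⟩ = φ (⟨z⁻¹, R.inv_mem hzR⟩ : R) := h2
        rw [h4, ← map_mul]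
        have h5 : (⟨z, hzR⟩ : R) * ⟨z⁻¹, R.inv_mem hzR⟩ = 1 := Subtype.ext (mul_inv_cancel z)
        rw [h5, map_one]
    · intro x m hm hx
      obtain ⟨hxR, hx1⟩ := (hmem _).1 hx
      have hxR' : x ∈ R := hR.2.2 x m hm hxR
      refine (hmem x).2 ⟨hxR', ?_⟩
      have h1 : (⟨x ^ m, hxR⟩ : R) = (⟨x, hxR'⟩ : R) ^ m := Subtype.ext rfl
      rw [h1, map_pow] at hx1
      have h2 : m * Multiplicative.toAdd (φ ⟨x, hxR'⟩) = 0 := by
        have := congrArg Multiplicative.toAdd hx1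
        rw [toAdd_pow, toAdd_one, nsmul_eq_mul] at this
        exact this
      have h3 : Multiplicative.toAdd (φ ⟨x, hxR'⟩) = 0 := by
        rcases mul_eq_zero.1 h2 with h | h
        · exact absurd (by exact_mod_cast h) hm.ne'
        · exact h
      exact Multiplicative.toAdd.injective h3
    · rintro x hx
      exact ((hmem x).1 hx).1
    · intro x
      rw [hmem]
      exact ⟨fun h => ⟨x.2, h⟩, fun ⟨_, h⟩ => h⟩
  choose Φ nxt hΦ using hstep
  have htop : P ⊤ := ⟨inferInstance, ⟨0, le_top⟩, fun _ _ _ _ => Subgroup.mem_top _⟩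
  let Nn : ℕ → {R : Subgroup K // P R} := fun i => Nat.rec ⟨⊤, htop⟩ (fun _ R => nxt R) i
  have hfg : Group.FG K := by
    rw [Group.fg_iff]
    exact ⟨Set.range a, hgen, Set.finite_range a⟩
  exact no_chain K c (fun i => (Nn i).1) (fun i => hPc _ (Nn i).2)
    (fun i => (hΦ (Nn i)).2.1) (fun i => Φ (Nn i)) (fun i => (hΦ (Nn i)).1)
    (fun i x => (hΦ (Nn i)).2.2 x)

/-- subgroups of a locally indicable group -/
theorem LI_sub (G : Type) [Group G]
    (hLI : ∀ S : Subgroup G, S.FG → S ≠ ⊥ → ∃ φ : S →* Multiplicative ℤ, Function.Surjective φ)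
    (H : Subgroup G) (K : Subgroup H) (hK : K.FG) (hK0 : K ≠ ⊥) :
    ∃ φ : K →* Multiplicative ℤ, Function.Surjective φ := by
  have h1 : (K.map H.subtype).FG := fg_map' _ hK
  have h2 : K.map H.subtype ≠ ⊥ := by
    intro h
    exact hK0 ((Subgroup.map_eq_bot_iff_of_injective K H.subtype_injective).1 h)
  obtain ⟨φ, hφ⟩ := hLI _ h1 h2
  let e := K.equivMapOfInjective H.subtype H.subtype_injective
  exact ⟨φ.comp e.toMonoidHom, hφ.comp e.surjective⟩

theorem closure_sub_top {G : Type} [Group G] {r : ℕ} (b : Fin r → G) (K : Subgroup G)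
    (hK : K = Subgroup.closure (Set.range b)) (hb : ∀ i, b i ∈ K) :
    Subgroup.closure (Set.range fun i => (⟨b i, hb i⟩ : K)) = ⊤ := by
  rw [eq_top_iff]
  intro x _
  have h2 : (Subgroup.closure (Set.range fun i => (⟨b i, hb i⟩ : K))).map K.subtype = K := by
    rw [MonoidHom.map_closure, ← Set.range_comp]
    exact hK.symm
  have h3 : (x : G) ∈ (Subgroup.closure (Set.range fun i => (⟨b i, hb i⟩ : K))).map K.subtype := by
    rw [h2]; exact x.2
  obtain ⟨y, hy, hyx⟩ := h3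
  have : y = x := Subtype.ext hyx
  rw [← this]; exact hy

theorem engel_sub {G : Type*} [Group G] (K : Subgroup G) (g : K) (N : ℕ)
    (h : ∀ x : G, (fun z : G => z⁻¹ * (g : G)⁻¹ * z * g)^[N] x = 1) (x : K) :
    (fun z : K => z⁻¹ * g⁻¹ * z * g)^[N] x = 1 := by
  have key : ∀ j : ℕ, (((fun z : K => z⁻¹ * g⁻¹ * z * g)^[j] x : K) : G) =
      (fun z : G => z⁻¹ * (g : G)⁻¹ * z * g)^[j] (x : G) := by
    intro j
    induction j with
    | zero => rfl
    | succ j ih =>
      rw [Function.iterate_succ_apply', Function.iterate_succ_apply', ← ih]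
      rfl
  apply Subtype.ext
  rw [key, h]
  rfl

/-- in a locally indicable group, `r` left `N`-Engel elements generate a nilpotent subgroup of bounded class -/
theorem class_bound_sub_LI (N r : ℕ) (hN : 1 ≤ N) : ∃ c : ℕ, ∀ (G : Type) [Group G],
    (∀ S : Subgroup G, S.FG → S ≠ ⊥ → ∃ φ : S →* Multiplicative ℤ, Function.Surjective φ) →
    ∀ b : Fin r → G, (∀ i x, (fun z : G => z⁻¹ * (b i)⁻¹ * z * b i)^[N] x = 1) →
    (Subgroup.closure (Set.range b)).lowerCentralSeries c = ⊥ := by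
  obtain ⟨c, hc⟩ := class_bound_LI N r hN
  refine ⟨c, ?_⟩
  intro G _ hLI b hE
  obtain ⟨K, hK⟩ : ∃ K : Subgroup G, K = Subgroup.closure (Set.range b) := ⟨_, rfl⟩
  rw [← hK]
  have hb : ∀ i, b i ∈ K := fun i => hK ▸ Subgroup.subset_closure ⟨i, rfl⟩
  have h1 := hc K (fun i => ⟨b i, hb i⟩) (closure_sub_top b K hK hb)
    (fun i x => engel_sub K ⟨b i, hb i⟩ N (hE i) x) (LI_sub G hLI K)
  rw [← Subgroup.top_subtype_lowerCentralSeries, h1, Subgroup.map_bot]

/-- a bound on the class of subgroups generated by finitely many left `N`-Engel elements implies that the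
boundedly Engel elements form a subgroup -/
theorem subgroup_of_bound (G : Type) [Group G]
    (hG : ∀ N r : ℕ, 1 ≤ N → ∃ c : ℕ, ∀ b : Fin r → G,
      (∀ i x, (fun z : G => z⁻¹ * (b i)⁻¹ * z * b i)^[N] x = 1) →
      (Subgroup.closure (Set.range b)).lowerCentralSeries c = ⊥) :
    ∃ H : Subgroup G, ∀ g : G,
      g ∈ H ↔ ∃ n : ℕ, ∀ x : G, (fun y : G => y⁻¹ * g⁻¹ * y * g)^[n] x = 1 := by
  refine ⟨{ carrier := {g | ∃ n : ℕ, ∀ x : G, (fun y : G => y⁻¹ * g⁻¹ * y * g)^[n] x = 1}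
            mul_mem' := ?_, one_mem' := ?_, inv_mem' := ?_ }, fun g => Iff.rfl⟩
  · rintro g h ⟨n, hg⟩ ⟨m, hh⟩
    obtain ⟨c, hc⟩ := hG (max n m + 1) 4 (by omega)
    refine ⟨c + 1, fun x => ?_⟩
    let b : Fin 4 → G := ![g, h, x⁻¹ * g * x, x⁻¹ * h * x]
    have hg' : ∀ x, (fun z : G => z⁻¹ * g⁻¹ * z * g)^[max n m + 1] x = 1 := fun x =>
      iter_add g n _ (by omega) x (hg x)
    have hh' : ∀ x, (fun z : G => z⁻¹ * h⁻¹ * z * h)^[max n m + 1] x = 1 := fun x =>
      iter_add h m _ (by omega) x (hh x)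
    have hb := hc b (by
      intro i x'
      fin_cases i
      · exact hg' x'
      · exact hh' x'
      · exact iter_conj g x _ hg' x'
      · exact iter_conj h x _ hh' x')
    obtain ⟨K, hK⟩ : ∃ K : Subgroup G, K = Subgroup.closure (Set.range b) := ⟨_, rfl⟩
    rw [← hK] at hb
    have h0 : g ∈ K := hK ▸ Subgroup.subset_closure ⟨0, rfl⟩
    have h1 : h ∈ K := hK ▸ Subgroup.subset_closure ⟨1, rfl⟩
    have h2 : x⁻¹ * g * x ∈ K := hK ▸ Subgroup.subset_closure ⟨2, rfl⟩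
    have h3 : x⁻¹ * h * x ∈ K := hK ▸ Subgroup.subset_closure ⟨3, rfl⟩
    rw [Function.iterate_succ_apply]
    have h4 : x⁻¹ * (g * h)⁻¹ * x * (g * h) ∈ K := by
      have e : x⁻¹ * (g * h)⁻¹ * x * (g * h) = (x⁻¹ * h * x)⁻¹ * (x⁻¹ * g * x)⁻¹ * (g * h) := by group
      rw [e]
      exact K.mul_mem (K.mul_mem (K.inv_mem h3) (K.inv_mem h2)) (K.mul_mem h0 h1)
    have h5 := iter_mem K (g * h) (K.mul_mem h0 h1) _ h4 c
    rw [hb, Subgroup.mem_bot] at h5
    exact h5
  · exact ⟨1, fun x => by simp⟩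
  · rintro g ⟨n, hg⟩
    obtain ⟨c, hc⟩ := hG (n + 1) 2 (by omega)
    refine ⟨c + 1, fun x => ?_⟩
    let b : Fin 2 → G := ![g, x⁻¹ * g * x]
    have hg' : ∀ x, (fun z : G => z⁻¹ * g⁻¹ * z * g)^[n + 1] x = 1 := fun x =>
      iter_add g n _ (by omega) x (hg x)
    have hb := hc b (by
      intro i x'
      fin_cases i
      · exact hg' x'
      · exact iter_conj g x _ hg' x')
    obtain ⟨K, hK⟩ : ∃ K : Subgroup G, K = Subgroup.closure (Set.range b) := ⟨_, rfl⟩
    rw [← hK] at hb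
    have h0 : g ∈ K := hK ▸ Subgroup.subset_closure ⟨0, rfl⟩
    have h2 : x⁻¹ * g * x ∈ K := hK ▸ Subgroup.subset_closure ⟨1, rfl⟩
    rw [Function.iterate_succ_apply]
    have h4 : x⁻¹ * g⁻¹⁻¹ * x * g⁻¹ ∈ K := by
      rw [inv_inv]
      exact K.mul_mem h2 (K.inv_mem h0)
    have h5 := iter_mem K g⁻¹ (K.inv_mem h0) _ h4 c
    rw [hb, Subgroup.mem_bot] at h5
    exact h5

/-- boundedly Engel elements of a locally indicable group form a subgroup -/
theorem main (G : Type) [Group G]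
    (hLI : ∀ S : Subgroup G, S.FG → S ≠ ⊥ → ∃ φ : S →* Multiplicative ℤ, Function.Surjective φ) :
    ∃ H : Subgroup G, ∀ g : G,
      g ∈ H ↔ ∃ n : ℕ, ∀ x : G, (fun y : G => y⁻¹ * g⁻¹ * y * g)^[n] x = 1 :=
  subgroup_of_bound G fun N r hN => by
    obtain ⟨c, hc⟩ := class_bound_sub_LI N r hN
    exact ⟨c, fun b hb => hc G hLI b hb⟩

end Pool.Agent.Helper28.BL
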